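import Pool.Agent.Q293.RB.Defs

/-!
# Project RB: the statements of the lemmas
-/

set_option autoImplicit false

open Finset

namespace Pool.Agent.Q293.RB

/-- LOW. The product of the four even atoms of a mixture of two product distributions. -/
def S_Low : Prop := ∀ (w : ℝ) (a b : Fin 3 → ℝ), 0 ≤ w → w ≤ 1 →
  (∀ i, 0 ≤ a i ∧ a i ≤ 1) → (∀ i, 0 ≤ b i ∧ b i ≤ 1) →
  mix w a b ![false, false, false] * mix w a b ![false, true, true] *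
    mix w a b ![true, false, true] * mix w a b ![true, true, false] ≤
    (2 * Real.sqrt 3 - 3) ^ 3 / 256

/-- REP. The model `RBM_{3,1}` consists of the mixtures of two positive product distributions. -/
def S_Rep : Prop := ∀ q : (Fin 3 → Bool) → ℝ, q ∈ RBM 3 1 ↔
  ∃ (w : ℝ) (a b : Fin 3 → ℝ), 0 < w ∧ w < 1 ∧ (∀ i, 0 < a i ∧ a i < 1) ∧
    (∀ i, 0 < b i ∧ b i < 1) ∧ ∀ x, q x = mix w a b x

/-- APP. Degenerate mixtures are approximated by positive ones. -/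
def S_App : Prop := ∀ (p : (Fin 3 → Bool) → ℝ) (w : ℝ) (a b : Fin 3 → ℝ), IsDist p →
  0 ≤ w → w ≤ 1 → (∀ i, 0 ≤ a i ∧ a i ≤ 1) → (∀ i, 0 ≤ b i ∧ b i ≤ 1) →
  (∀ x, 0 < p x → 0 < mix w a b x) → ∀ η : ℝ, 0 < η →
  ∃ (w' : ℝ) (a' b' : Fin 3 → ℝ), 0 < w' ∧ w' < 1 ∧ (∀ i, 0 < a' i ∧ a' i < 1) ∧
    (∀ i, 0 < b' i ∧ b' i < 1) ∧ KL p (mix w' a' b') ≤ KL p (mix w a b) + η

/-- SPL. Splitting off a part of one atom. -/
def S_Spl : Prop := ∀ (p : (Fin 3 → Bool) → ℝ) (x₀ : Fin 3 → Bool), IsDist p → 0 < p x₀ →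
  ∃ (w : ℝ) (a b : Fin 3 → ℝ), 0 ≤ w ∧ w ≤ 1 ∧ (∀ i, 0 ≤ a i ∧ a i ≤ 1) ∧
    (∀ i, 0 ≤ b i ∧ b i ≤ 1) ∧ (∀ x, 0 < p x → 0 < mix w a b x) ∧
    KL p (mix w a b) ≤ Jx p x₀

/-- DEC. The average of `Jx` is a sum over the three coordinates. -/
def S_Dec : Prop := ∀ p : (Fin 3 → Bool) → ℝ, IsDist p →
  ∑ x, p x * Jx p x = ∑ i, (∑ x, phi (marg p i (x i)) (p x) -
    (marg p i true * f (1 - marg p i true) + (1 - marg p i true) * f (marg p i true)))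

/-- MERGE. Two small atoms on one side can be merged. -/
def S_Merge : Prop := ∀ m a b : ℝ, 0 < m → m ≤ 1 → 0 ≤ a → 0 ≤ b → a + b ≤ 2 * m / 3 →
  phi m a + phi m b ≤ phi m (a + b)

/-- TWO. Two atoms on one side: the worst case is a single atom or two equal atoms. -/
def S_Two : Prop := ∀ m a : ℝ, 0 < m → m ≤ 1 → 0 ≤ a → a ≤ m / 2 →
  phi m a + phi m (m - a) ≤ max (E1 m) (E2 m)

/-- GTT. Two equal atoms on both sides. -/
def S_GTT : Prop := ∀ m : ℝ, 0 < m → m < 1 →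
  E2 m + E2 (1 - m) - (m * f (1 - m) + (1 - m) * f m) ≤ V / 3 - 485 / 1000 * (m - 1 / 2) ^ 2

/-- DEL. One atom against two equal atoms. -/
def S_Del : Prop :=
  (∀ m : ℝ, 0 ≤ m → m ≤ 33 / 100 → E1 m - E2 m ≤ 2311 / 10000 * m * (1 - m / (33 / 100))) ∧
  (∀ m : ℝ, 33 / 100 ≤ m → m ≤ 85 / 100 → E1 m ≤ E2 m) ∧
  (∀ m : ℝ, 85 / 100 ≤ m → m ≤ 1 → E1 m - E2 m ≤ 76 / 1000 * (m - 85 / 100) / (15 / 100))

end Pool.Agent.Q293.RB
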