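import Mathlib
import Pool.Agent.Q293.RB.Stm

set_option autoImplicit false

/-!
# Project RB, job APP: degenerate mixtures are approximated by positive ones (helper225)
-/

open Finset

namespace Pool.Agent.Q293.RB

/-- contraction towards one half -/
noncomputable def ctr (r t : ℝ) : ℝ := r * t + (1 - r) / 2

lemma ctr_bounds {r t : ℝ} (hr0 : 0 < r) (hr1 : r < 1) (h0 : 0 ≤ t) (h1 : t ≤ 1) :
    0 < ctr r t ∧ ctr r t < 1 ∧ r * t ≤ ctr r t ∧ r * (1 - t) ≤ 1 - ctr r t := by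
  unfold ctr
  refine ⟨?_, ?_, ?_, ?_⟩
  · nlinarith [mul_nonneg hr0.le h0]
  · nlinarith [mul_nonneg hr0.le (sub_nonneg.2 h1)]
  · linarith
  · nlinarith

lemma prodLaw_ctr {r : ℝ} (hr0 : 0 < r) (hr1 : r < 1) (a : Fin 3 → ℝ)
    (ha : ∀ i, 0 ≤ a i ∧ a i ≤ 1) (x : Fin 3 → Bool) :
    0 ≤ prodLaw a x ∧ r ^ 3 * prodLaw a x ≤ prodLaw (fun i => ctr r (a i)) x := by
  have h0 : ∀ i, 0 ≤ (if x i then a i else 1 - a i) := by
    intro i
    split_ifs
    · exact (ha i).1
    · exact sub_nonneg.2 (ha i).2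
  refine ⟨prod_nonneg fun i _ => h0 i, ?_⟩
  unfold prodLaw
  have h1 : r ^ 3 * ∏ i, (if x i then a i else 1 - a i) =
      ∏ i, (r * (if x i then a i else 1 - a i)) := by
    rw [prod_mul_distrib, prod_const, card_univ, Fintype.card_fin]
  rw [h1]
  refine prod_le_prod (fun i _ => mul_nonneg hr0.le (h0 i)) fun i _ => ?_
  have h2 := ctr_bounds hr0 hr1 (ha i).1 (ha i).2
  split_ifs
  · exact h2.2.2.1
  · exact h2.2.2.2

theorem app : S_App := by
  intro p w a b hp hw0 hw1 ha hb hpos η hη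
  obtain ⟨r, hr⟩ : ∃ r, r = Real.exp (-(η / 4)) := ⟨_, rfl⟩
  have hr0 : 0 < r := by
    rw [hr]
    exact Real.exp_pos _
  have hr1 : r < 1 := by
    rw [hr, Real.exp_lt_one_iff]
    linarith
  have hlr : Real.log r = -(η / 4) := by
    rw [hr, Real.log_exp]
  obtain ⟨w0, w1, w2, w3⟩ := ctr_bounds hr0 hr1 hw0 hw1
  refine ⟨ctr r w, fun i => ctr r (a i), fun i => ctr r (b i), w0, w1, ?_, ?_, ?_⟩
  · intro i
    have h := ctr_bounds hr0 hr1 (ha i).1 (ha i).2
    exact ⟨h.1, h.2.1⟩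
  · intro i
    have h := ctr_bounds hr0 hr1 (hb i).1 (hb i).2
    exact ⟨h.1, h.2.1⟩
  have hmix : ∀ x, r ^ 4 * mix w a b x ≤
      mix (ctr r w) (fun i => ctr r (a i)) (fun i => ctr r (b i)) x := by
    intro x
    obtain ⟨pa0, pa1⟩ := prodLaw_ctr hr0 hr1 a ha x
    obtain ⟨pb0, pb1⟩ := prodLaw_ctr hr0 hr1 b hb x
    have e1 : r * w * (r ^ 3 * prodLaw a x) ≤ ctr r w * prodLaw (fun i => ctr r (a i)) x :=
      mul_le_mul w2 pa1 (mul_nonneg (pow_nonneg hr0.le 3) pa0) w0.le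
    have e2 : r * (1 - w) * (r ^ 3 * prodLaw b x) ≤
        (1 - ctr r w) * prodLaw (fun i => ctr r (b i)) x :=
      mul_le_mul w3 pb1 (mul_nonneg (pow_nonneg hr0.le 3) pb0) (by linarith)
    unfold mix
    calc r ^ 4 * (w * prodLaw a x + (1 - w) * prodLaw b x)
        = r * w * (r ^ 3 * prodLaw a x) + r * (1 - w) * (r ^ 3 * prodLaw b x) := by ring
      _ ≤ _ := add_le_add e1 e2
  have hterm : ∀ x, p x * Real.log (p x / mix (ctr r w) (fun i => ctr r (a i))
      (fun i => ctr r (b i)) x) ≤ p x * Real.log (p x / mix w a b x) + p x * η := by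
    intro x
    rcases (hp.1 x).eq_or_lt with h | h
    · rw [← h]
      simp
    · have hm := hpos x h
      have hm' := hmix x
      have hr4 : 0 < r ^ 4 := pow_pos hr0 4
      have hm1 : 0 < mix (ctr r w) (fun i => ctr r (a i)) (fun i => ctr r (b i)) x :=
        lt_of_lt_of_le (mul_pos hr4 hm) hm'
      have hl : Real.log (r ^ 4 * mix w a b x) ≤
          Real.log (mix (ctr r w) (fun i => ctr r (a i)) (fun i => ctr r (b i)) x) :=
        Real.log_le_log (mul_pos hr4 hm) hm'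
      rw [Real.log_mul hr4.ne' hm.ne', Real.log_pow, hlr] at hl
      rw [Real.log_div h.ne' hm1.ne', Real.log_div h.ne' hm.ne', ← mul_add]
      refine mul_le_mul_of_nonneg_left ?_ h.le
      push_cast at hl
      linarith
  unfold KL
  calc ∑ x, p x * Real.log (p x / mix (ctr r w) (fun i => ctr r (a i))
      (fun i => ctr r (b i)) x) ≤ ∑ x, (p x * Real.log (p x / mix w a b x) + p x * η) :=
        sum_le_sum fun x _ => hterm x
    _ = ∑ x, p x * Real.log (p x / mix w a b x) + η := by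
        rw [sum_add_distrib, ← sum_mul, hp.2, one_mul]

end Pool.Agent.Q293.RB
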