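import Pool.Agent.Q293.RB.Side

/-!
# Project RB: assembly
-/

set_option autoImplicit false

open Finset

namespace Pool.Agent.Q293.RB

theorem marg_add (p : (Fin 3 → Bool) → ℝ) (i : Fin 3) :
    marg p i true + marg p i false = ∑ x, p x := by
  unfold marg
  rw [← Finset.sum_add_distrib]
  refine Finset.sum_congr rfl fun x _ => ?_
  cases x i <;> simp

theorem marg_nonneg {p : (Fin 3 → Bool) → ℝ} (hp : ∀ x, 0 ≤ p x) (i : Fin 3) (s : Bool) :
    0 ≤ marg p i s :=
  Finset.sum_nonneg fun x _ => by split_ifs <;> [exact hp x; exact le_rfl]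

/-- The two sides of a coordinate. -/
theorem sides (hM : S_Merge) (hT : S_Two) {p : (Fin 3 → Bool) → ℝ} (hp : IsDist p) (i : Fin 3) :
    ∑ x, phi (marg p i (x i)) (p x) ≤
      max (E1 (marg p i true)) (E2 (marg p i true)) +
        max (E1 (marg p i false)) (E2 (marg p i false)) := by
  have hsum : ∑ x, p x = 1 := hp.2
  have hadd := marg_add p i
  rw [hsum] at hadd
  have h0 := marg_nonneg hp.1 i true
  have h1 := marg_nonneg hp.1 i false
  have ht := fun (a b c d : ℝ) (ha : 0 ≤ a) (hb : 0 ≤ b) (hc : 0 ≤ c) (hd : 0 ≤ d)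
    (h : a + b + c + d = marg p i true) => side4 hM hT h0 (by linarith) ha hb hc hd h
  have hf := fun (a b c d : ℝ) (ha : 0 ≤ a) (hb : 0 ≤ b) (hc : 0 ≤ c) (hd : 0 ≤ d)
    (h : a + b + c + d = marg p i false) => side4 hM hT h1 (by linarith) ha hb hc hd h
  rw [sum8]
  fin_cases i
  · have e1 := ht (p ![true, false, false]) (p ![true, false, true]) (p ![true, true, false])
      (p ![true, true, true]) (hp.1 _) (hp.1 _) (hp.1 _) (hp.1 _)
      (by unfold marg; rw [sum8]; simp)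
    have e2 := hf (p ![false, false, false]) (p ![false, false, true]) (p ![false, true, false])
      (p ![false, true, true]) (hp.1 _) (hp.1 _) (hp.1 _) (hp.1 _)
      (by unfold marg; rw [sum8]; simp)
    simp only [Fin.zero_eta, Fin.isValue, Matrix.cons_val_zero] at e1 e2 ⊢
    linarith
  · have e1 := ht (p ![false, true, false]) (p ![false, true, true]) (p ![true, true, false])
      (p ![true, true, true]) (hp.1 _) (hp.1 _) (hp.1 _) (hp.1 _)
      (by unfold marg; rw [sum8]; simp)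
    have e2 := hf (p ![false, false, false]) (p ![false, false, true]) (p ![true, false, false])
      (p ![true, false, true]) (hp.1 _) (hp.1 _) (hp.1 _) (hp.1 _)
      (by unfold marg; rw [sum8]; simp)
    simp only [Fin.mk_one, Fin.isValue, Matrix.cons_val_one, Matrix.cons_val_zero] at e1 e2 ⊢
    linarith
  · have e1 := ht (p ![false, false, true]) (p ![false, true, true]) (p ![true, false, true])
      (p ![true, true, true]) (hp.1 _) (hp.1 _) (hp.1 _) (hp.1 _)
      (by unfold marg; rw [sum8]; simp)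
    have e2 := hf (p ![false, false, false]) (p ![false, true, false]) (p ![true, false, false])
      (p ![true, true, false]) (hp.1 _) (hp.1 _) (hp.1 _) (hp.1 _)
      (by unfold marg; rw [sum8]; simp)
    simp only [Fin.reduceFinMk, Fin.isValue, Matrix.cons_val] at e1 e2 ⊢
    linarith

theorem average (hM : S_Merge) (hT : S_Two) (hG : S_GTT) (hD : S_Del) (hdec : S_Dec)
    {p : (Fin 3 → Bool) → ℝ} (hp : IsDist p) : ∑ x, p x * Jx p x ≤ V := by
  rw [hdec p hp]
  have hsum : ∑ x, p x = 1 := hp.2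
  have : ∀ i : Fin 3, ∑ x, phi (marg p i (x i)) (p x) -
      (marg p i true * f (1 - marg p i true) + (1 - marg p i true) * f (marg p i true)) ≤
      V / 3 := by
    intro i
    have h1 := sides hM hT hp i
    have hadd := marg_add p i
    rw [hsum] at hadd
    have h0 := marg_nonneg hp.1 i true
    have h0' := marg_nonneg hp.1 i false
    have h2 := fin hG hD h0 (by linarith)
    have h3 : marg p i false = 1 - marg p i true := by linarith
    rw [h3] at h1
    linarith
  calc _ ≤ ∑ _i : Fin 3, V / 3 := Finset.sum_le_sum fun i _ => this i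
    _ = V := by simp; ring

theorem exists_atom (hM : S_Merge) (hT : S_Two) (hG : S_GTT) (hD : S_Del) (hdec : S_Dec)
    {p : (Fin 3 → Bool) → ℝ} (hp : IsDist p) : ∃ x, 0 < p x ∧ Jx p x ≤ V := by
  by_contra hcon
  push Not at hcon
  have havg := average hM hT hG hD hdec hp
  have hle : ∀ x, p x * V ≤ p x * Jx p x := by
    intro x
    rcases (hp.1 x).eq_or_lt with h | h
    · rw [← h]; simp
    · exact mul_le_mul_of_nonneg_left (hcon x h).le h.le
  obtain ⟨x₀, hx₀⟩ : ∃ x, 0 < p x := by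
    by_contra hno
    push Not at hno
    have : ∑ x, p x ≤ 0 := Finset.sum_nonpos fun x _ => hno x
    rw [hp.2] at this
    norm_num at this
  have hlt : ∑ x, p x * V < ∑ x, p x * Jx p x :=
    Finset.sum_lt_sum (fun x _ => hle x)
      ⟨x₀, Finset.mem_univ _, mul_lt_mul_of_pos_left (hcon x₀ hx₀) hx₀⟩
  rw [← Finset.sum_mul, hp.2, one_mul] at hlt
  linarith

theorem upper (hM : S_Merge) (hT : S_Two) (hG : S_GTT) (hD : S_Del) (hdec : S_Dec)
    (hR : S_Rep) (hA : S_App) (hS : S_Spl) {p : (Fin 3 → Bool) → ℝ} (hp : IsDist p)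
    {η : ℝ} (hη : 0 < η) : ∃ q ∈ RBM 3 1, KL p q ≤ V + η := by
  obtain ⟨x, hx, hJ⟩ := exists_atom hM hT hG hD hdec hp
  obtain ⟨w, a, b, hw, hw1, ha, hb, hpos, hKL⟩ := hS p x hp hx
  obtain ⟨w', a', b', h1, h2, h3, h4, h5⟩ := hA p w a b hp hw hw1 ha hb hpos η hη
  exact ⟨mix w' a' b', (hR _).2 ⟨w', a', b', h1, h2, h3, h4, fun _ => rfl⟩, by linarith⟩

theorem mix_sum (w : ℝ) (a b : Fin 3 → ℝ) : ∑ x, mix w a b x = 1 := by
  rw [sum8]
  simp [mix, prodLaw, Fin.prod_univ_three]
  ring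

theorem prodLaw_pos {a : Fin 3 → ℝ} (ha : ∀ i, 0 < a i ∧ a i < 1) (x : Fin 3 → Bool) :
    0 < prodLaw a x := by
  unfold prodLaw
  refine Finset.prod_pos fun i _ => ?_
  split_ifs
  · exact (ha i).1
  · linarith [(ha i).2]

theorem rbm_pos (hR : S_Rep) {q : (Fin 3 → Bool) → ℝ} (hq : q ∈ RBM 3 1) : ∀ x, 0 < q x := by
  obtain ⟨w, a, b, hw, hw1, ha, hb, he⟩ := (hR q).1 hq
  intro x
  rw [he x]
  have h1 := prodLaw_pos ha x
  have h2 := prodLaw_pos hb x
  have h3 : 0 < 1 - w := by linarith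
  unfold mix
  positivity

theorem rbm_sum (hR : S_Rep) {q : (Fin 3 → Bool) → ℝ} (hq : q ∈ RBM 3 1) : ∑ x, q x = 1 := by
  obtain ⟨w, a, b, hw, hw1, ha, hb, he⟩ := (hR q).1 hq
  rw [Finset.sum_congr rfl fun x _ => he x]
  exact mix_sum w a b

theorem KL_nonneg {p q : (Fin 3 → Bool) → ℝ} (hp : IsDist p) (hq : ∀ x, 0 < q x)
    (hq1 : ∑ x, q x = 1) : 0 ≤ KL p q := by
  have h : ∀ x, p x - q x ≤ p x * Real.log (p x / q x) := by
    intro x
    rcases (hp.1 x).eq_or_lt with h | h
    · rw [← h]; simp [(hq x).le]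
    · have h1 : Real.log (q x / p x) ≤ q x / p x - 1 :=
        Real.log_le_sub_one_of_pos (div_pos (hq x) h)
      have h2 : Real.log (p x / q x) = - Real.log (q x / p x) := by
        rw [← Real.log_inv, inv_div]
      rw [h2]
      have h3 := mul_le_mul_of_nonneg_left h1 h.le
      have h4 : p x * (q x / p x - 1) = q x - p x := by field_simp
      linarith
  have := Finset.sum_le_sum fun x (_ : x ∈ Finset.univ) => h x
  rw [Finset.sum_sub_distrib, hp.2, hq1] at this
  unfold KL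
  linarith

theorem par_isDist : IsDist par := by
  constructor
  · intro x
    unfold par
    split_ifs <;> norm_num
  · rw [sum8]
    simp [par]
    norm_num

theorem lower (hL : S_Low) (hR : S_Rep) {q : (Fin 3 → Bool) → ℝ} (hq : q ∈ RBM 3 1) :
    V ≤ KL par q := by
  have hpos := rbm_pos hR hq
  obtain ⟨w, a, b, hw, hw1, ha, hb, he⟩ := (hR q).1 hq
  have hlow := hL w a b hw.le hw1.le (fun i => ⟨(ha i).1.le, (ha i).2.le⟩)
    (fun i => ⟨(hb i).1.le, (hb i).2.le⟩)
  rw [← he, ← he, ← he, ← he] at hlow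
  set q0 := q ![false, false, false]
  set q1 := q ![false, true, true]
  set q2 := q ![true, false, true]
  set q3 := q ![true, true, false]
  have p0 : 0 < q0 := hpos _
  have p1 : 0 < q1 := hpos _
  have p2 : 0 < q2 := hpos _
  have p3 : 0 < q3 := hpos _
  have hKL : KL par q = 1 / 4 * Real.log (1 / 4 / q0) + 1 / 4 * Real.log (1 / 4 / q1) +
      1 / 4 * Real.log (1 / 4 / q2) + 1 / 4 * Real.log (1 / 4 / q3) := by
    unfold KL
    rw [sum8]
    simp [par, q0, q1, q2, q3]
  have hdiv : ∀ t : ℝ, 0 < t → Real.log (1 / 4 / t) = Real.log (1 / 4) - Real.log t :=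
    fun t ht => Real.log_div (by norm_num) ht.ne'
  rw [hKL, hdiv _ p0, hdiv _ p1, hdiv _ p2, hdiv _ p3]
  have hlog : Real.log q0 + Real.log q1 + Real.log q2 + Real.log q3 ≤
      3 * Real.log (2 * Real.sqrt 3 - 3) - 8 * Real.log 2 := by
    have h3 : (0 : ℝ) < Real.sqrt 3 := by positivity
    have h33 : Real.sqrt 3 * Real.sqrt 3 = 3 := Real.mul_self_sqrt (by norm_num)
    have h4 : 0 < 2 * Real.sqrt 3 - 3 := by nlinarith
    have h256 : (256 : ℝ) = 2 ^ 8 := by norm_num
    have e1 : Real.log ((2 * Real.sqrt 3 - 3) ^ 3 / 256) =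
        3 * Real.log (2 * Real.sqrt 3 - 3) - 8 * Real.log 2 := by
      rw [Real.log_div (by positivity) (by norm_num), Real.log_pow, h256, Real.log_pow]
      norm_num
    rw [← e1, ← Real.log_mul p0.ne' p1.ne', ← Real.log_mul (by positivity) p2.ne',
      ← Real.log_mul (by positivity) p3.ne']
    exact Real.log_le_log (by positivity) hlow
  have hV : V = - (3 / 4 * Real.log (2 * Real.sqrt 3 - 3)) := by
    unfold V
    have h3 : (0 : ℝ) < Real.sqrt 3 := by positivity
    have h33 : Real.sqrt 3 * Real.sqrt 3 = 3 := Real.mul_self_sqrt (by norm_num)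
    have h4 : 0 < 2 * Real.sqrt 3 - 3 := by nlinarith
    have : 1 + 2 / Real.sqrt 3 = (2 * Real.sqrt 3 - 3)⁻¹ := by
      apply eq_inv_of_mul_eq_one_left
      field_simp
      nlinarith
    rw [this, Real.log_inv]
    ring
  have h14 : Real.log (1 / 4) = - (2 * Real.log 2) := by
    rw [one_div, Real.log_inv, show (4 : ℝ) = 2 ^ 2 by norm_num, Real.log_pow]
    norm_num
  rw [hV, h14]
  linarith

/-- The final theorem, from the lemmas. -/
theorem final (hL : S_Low) (hM : S_Merge) (hT : S_Two) (hG : S_GTT) (hD : S_Del)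
    (hdec : S_Dec) (hR : S_Rep) (hA : S_App) (hS : S_Spl) :
    IsGreatest {d : ℝ | ∃ p : (Fin 3 → Bool) → ℝ, IsDist p ∧
        IsGLB {e : ℝ | ∃ q ∈ RBM 3 1, e = KL p q} d} V ∧
      (∀ p : (Fin 3 → Bool) → ℝ, IsDist p →
        ∃ d : ℝ, IsGLB {e : ℝ | ∃ q ∈ RBM 3 1, e = KL p q} d) ∧
      IsDist par ∧ IsGLB {e : ℝ | ∃ q ∈ RBM 3 1, e = KL par q} V := by
  have hglb : ∀ p : (Fin 3 → Bool) → ℝ, IsDist p →
      ∃ d : ℝ, IsGLB {e : ℝ | ∃ q ∈ RBM 3 1, e = KL p q} d := by
    intro p hp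
    obtain ⟨q, hq, _⟩ := upper hM hT hG hD hdec hR hA hS hp one_pos
    refine ⟨sInf {e : ℝ | ∃ q ∈ RBM 3 1, e = KL p q}, isGLB_csInf ⟨_, q, hq, rfl⟩ ⟨0, ?_⟩⟩
    rintro e ⟨q', hq', rfl⟩
    exact KL_nonneg hp (rbm_pos hR hq') (rbm_sum hR hq')
  have hpar : IsGLB {e : ℝ | ∃ q ∈ RBM 3 1, e = KL par q} V := by
    constructor
    · rintro e ⟨q, hq, rfl⟩
      exact lower hL hR hq
    · intro d hd
      refine le_of_forall_pos_le_add fun η hη => ?_
      obtain ⟨q, hq, hle⟩ := upper hM hT hG hD hdec hR hA hS par_isDist hη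
      exact (hd ⟨q, hq, rfl⟩).trans hle
  refine ⟨⟨⟨par, par_isDist, hpar⟩, ?_⟩, hglb, par_isDist, hpar⟩
  rintro d ⟨p, hp, hd⟩
  refine le_of_forall_pos_le_add fun η hη => ?_
  obtain ⟨q, hq, hle⟩ := upper hM hT hG hD hdec hR hA hS hp hη
  exact (hd.1 ⟨q, hq, rfl⟩).trans hle

end Pool.Agent.Q293.RB
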