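import Mathlib
import Pool.Agent.Q293.RB.Stm

set_option autoImplicit false

/-!
# Project RB, job DEC: the average of `Jx` (helper225)
-/

open Finset

namespace Pool.Agent.Q293.RB

lemma cc_eq : cc = 1 - kk := by
  unfold cc kk
  ring

lemma kk_pos : 0 < kk := by
  unfold kk
  have h3 : Real.sqrt 3 < 2 := by
    rw [Real.sqrt_lt' (by norm_num)]
    norm_num
  have h0 : 0 < Real.sqrt 3 := Real.sqrt_pos.2 (by norm_num)
  rw [sub_pos, lt_div_iff₀ h0]
  linarith

lemma f_kk (t : ℝ) : f (kk * t) = t * (kk * Real.log kk) + kk * f t := by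
  unfold f
  by_cases ht : t = 0
  · rw [ht]
    simp
  · rw [Real.log_mul kk_pos.ne' ht]
    ring

lemma marg_add (p : (Fin 3 → Bool) → ℝ) (i : Fin 3) : marg p i true + marg p i false = ∑ x, p x := by
  unfold marg
  rw [← sum_add_distrib]
  refine sum_congr rfl fun x _ => ?_
  cases x i <;> simp

/-- the sum over one coordinate -/
lemma sum_coord (p : (Fin 3 → Bool) → ℝ) (i : Fin 3) (F : Bool → ℝ) :
    ∑ x, p x * F (x i) = marg p i true * F true + marg p i false * F false := by
  unfold marg
  rw [sum_mul, sum_mul, ← sum_add_distrib]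
  refine sum_congr rfl fun x _ => ?_
  cases x i <;> simp

theorem dec : S_Dec := by
  intro p hp
  have hp1 : ∑ x, p x = 1 := hp.2
  have hB : ∀ i, ∑ x, p x * f (marg p i (!x i)) =
      marg p i true * f (1 - marg p i true) + (1 - marg p i true) * f (marg p i true) := by
    intro i
    have h1 := marg_add p i
    rw [hp1] at h1
    have h2 : marg p i false = 1 - marg p i true := by linarith
    have h3 := sum_coord p i (fun b => f (marg p i (!b)))
    simp only [Bool.not_true, Bool.not_false] at h3
    rw [h3, h2]
  have hA : ∑ x, p x * (∑ y, if y = x then f (kk * p x) else f (p y)) =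
      ∑ x, p x * (Real.log (p x) - cc * f (p x) + p x * (kk * Real.log kk)) := by
    have e1 : ∀ x, (∑ y, if y = x then f (kk * p x) else f (p y)) =
        f (kk * p x) - f (p x) + ∑ y, f (p y) := by
      intro x
      have : ∀ y, (if y = x then f (kk * p x) else f (p y)) =
          (if y = x then f (kk * p x) - f (p x) else 0) + f (p y) := by
        intro y
        split_ifs with h
        · rw [h]
          ring
        · ring
      simp only [this]
      rw [sum_add_distrib, sum_ite_eq' univ x, if_pos (mem_univ x)]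
    have e2 : ∑ x, p x * (∑ y, f (p y)) = ∑ x, p x * Real.log (p x) := by
      rw [← sum_mul, hp1, one_mul]
      rfl
    have e3 : ∑ x, p x * (∑ y, if y = x then f (kk * p x) else f (p y)) =
        ∑ x, p x * (f (kk * p x) - f (p x)) + ∑ x, p x * (∑ y, f (p y)) := by
      rw [← sum_add_distrib]
      refine sum_congr rfl fun x _ => ?_
      rw [e1 x]
      ring
    rw [e3, e2, ← sum_add_distrib]
    refine sum_congr rfl fun x _ => ?_
    rw [f_kk, cc_eq]
    ring
  -- expand both sides
  have hL : ∑ x, p x * Jx p x = ∑ x, p x * (∑ y, if y = x then f (kk * p x) else f (p y)) +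
      ∑ x, p x * (2 * f (1 - cc * p x)) - ∑ i, ∑ x, p x * f (marg p i (x i) - cc * p x) -
      ∑ i, ∑ x, p x * f (marg p i (!x i)) := by
    rw [sum_comm (γ := Fin 3), sum_comm (γ := Fin 3), ← sum_add_distrib, ← sum_sub_distrib, ← sum_sub_distrib]
    refine sum_congr rfl fun x _ => ?_
    have g1 : p x * ∑ i, (f (marg p i (x i) - cc * p x) + f (marg p i (!x i))) =
        ∑ i, p x * f (marg p i (x i) - cc * p x) + ∑ i, p x * f (marg p i (!x i)) := by
      rw [sum_add_distrib, mul_add, mul_sum, mul_sum]
    unfold Jx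
    rw [mul_sub, g1]
    ring
  have hR : ∑ i, (∑ x, phi (marg p i (x i)) (p x) -
      (marg p i true * f (1 - marg p i true) + (1 - marg p i true) * f (marg p i true))) =
      ∑ x, p x * (Real.log (p x) - cc * f (p x) + p x * (kk * Real.log kk)) +
      ∑ x, p x * (2 * f (1 - cc * p x)) - ∑ i, ∑ x, p x * f (marg p i (x i) - cc * p x) -
      ∑ i, ∑ x, p x * f (marg p i (!x i)) := by
    simp only [hB]
    rw [sum_sub_distrib]
    congr 1
    have e4 : ∀ i : Fin 3, ∑ x, phi (marg p i (x i)) (p x) =
        (1 / 3) * (∑ x, p x * (Real.log (p x) - cc * f (p x) + p x * (kk * Real.log kk)) +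
          ∑ x, p x * (2 * f (1 - cc * p x))) - ∑ x, p x * f (marg p i (x i) - cc * p x) := by
      intro i
      rw [← sum_add_distrib, mul_sum, ← sum_sub_distrib]
      refine sum_congr rfl fun x _ => ?_
      unfold phi xi
      ring
    simp only [e4]
    rw [sum_sub_distrib, sum_const, card_univ, Fintype.card_fin, nsmul_eq_mul]
    push_cast
    ring
  rw [hL, hR, hA]

end Pool.Agent.Q293.RB
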