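import Mathlib

/-!
# Restricted Boltzmann machines: definitions (project RB)
-/

set_option autoImplicit false

open Finset

namespace Pool.Agent.Q293.RB

/-- The numerical value of a bit. -/
def bit (b : Bool) : ℝ := if b then 1 else 0

/-- The unnormalised weight of the visible state `v` in the restricted Boltzmann machine with `n`
visible and `m` hidden binary units and parameters `W`, `b`, `c`. -/
noncomputable def rbmWeight {n m : ℕ} (W : Fin m → Fin n → ℝ) (b : Fin n → ℝ) (c : Fin m → ℝ)
    (v : Fin n → Bool) : ℝ :=
  ∑ h : Fin m → Bool, Real.exp (∑ j, ∑ i, bit (h j) * W j i * bit (v i) +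
    ∑ i, b i * bit (v i) + ∑ j, c j * bit (h j))

/-- The model `RBM_{n,m}`: the set of all distributions of the visible units of a restricted
Boltzmann machine with `n` visible and `m` hidden binary units. -/
def RBM (n m : ℕ) : Set ((Fin n → Bool) → ℝ) :=
  {q | ∃ (W : Fin m → Fin n → ℝ) (b : Fin n → ℝ) (c : Fin m → ℝ),
    ∀ v, q v = rbmWeight W b c v / ∑ u, rbmWeight W b c u}

/-- Probability distributions on a finite set. -/
def IsDist {X : Type} [Fintype X] (p : X → ℝ) : Prop := (∀ x, 0 ≤ p x) ∧ ∑ x, p x = 1

/-- The Kullback-Leibler divergence (natural logarithm). -/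
noncomputable def KL {X : Type} [Fintype X] (p q : X → ℝ) : ℝ :=
  ∑ x, p x * Real.log (p x / q x)

/-- The function `t log t`. -/
noncomputable def f (t : ℝ) : ℝ := t * Real.log t

/-- The constant `c = 2 - 2/√3`. -/
noncomputable def cc : ℝ := 2 - 2 / Real.sqrt 3

/-- The constant `k = 1 - c = 2/√3 - 1`. -/
noncomputable def kk : ℝ := 2 / Real.sqrt 3 - 1

/-- The value `(3/4) log (1 + 2/√3)`. -/
noncomputable def V : ℝ := 3 / 4 * Real.log (1 + 2 / Real.sqrt 3)

/-- The weight of an atom of size `t` on a side of mass `m`. -/
noncomputable def xi (m t : ℝ) : ℝ :=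
  (Real.log t - cc * f t + t * (kk * Real.log kk) + 2 * f (1 - cc * t)) / 3 - f (m - cc * t)

/-- The contribution of an atom of size `t` on a side of mass `m`. -/
noncomputable def phi (m t : ℝ) : ℝ := t * xi m t

/-- One atom on a side of mass `m`. -/
noncomputable def E1 (m : ℝ) : ℝ := phi m m

/-- Two equal atoms on a side of mass `m`. -/
noncomputable def E2 (m : ℝ) : ℝ := m * xi m (m / 2)

/-- A product distribution on three bits. -/
noncomputable def prodLaw (a : Fin 3 → ℝ) (x : Fin 3 → Bool) : ℝ :=
  ∏ i, if x i then a i else 1 - a i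

/-- A mixture of two product distributions on three bits. -/
noncomputable def mix (w : ℝ) (a b : Fin 3 → ℝ) (x : Fin 3 → Bool) : ℝ :=
  w * prodLaw a x + (1 - w) * prodLaw b x

/-- The mass of the side `x i = s` of the cube. -/
noncomputable def marg (p : (Fin 3 → Bool) → ℝ) (i : Fin 3) (s : Bool) : ℝ :=
  ∑ x, if x i = s then p x else 0

/-- The value of the split of `p` at the atom `x`: `J (p - c p_x δ_x)`. -/
noncomputable def Jx (p : (Fin 3 → Bool) → ℝ) (x : Fin 3 → Bool) : ℝ :=
  (∑ y, if y = x then f (kk * p x) else f (p y)) + 2 * f (1 - cc * p x)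
    - ∑ i, (f (marg p i (x i) - cc * p x) + f (marg p i (!x i)))

/-- The uniform distribution on the bit strings of even weight. -/
noncomputable def par (x : Fin 3 → Bool) : ℝ :=
  if (x 0 ^^ x 1 ^^ x 2) = false then 1 / 4 else 0

/-- Sums over the cube of three bits, written out. -/
theorem sum8 {M : Type} [AddCommMonoid M] (F : (Fin 3 → Bool) → M) :
    ∑ x, F x = F ![false, false, false] + F ![false, false, true] + F ![false, true, false] +
      F ![false, true, true] + F ![true, false, false] + F ![true, false, true] +
      F ![true, true, false] + F ![true, true, true] := by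
  have h : (Finset.univ : Finset (Fin 3 → Bool)) = {![false, false, false],
      ![false, false, true], ![false, true, false], ![false, true, true], ![true, false, false],
      ![true, false, true], ![true, true, false], ![true, true, true]} := by decide
  rw [h]
  repeat rw [Finset.sum_insert (by decide)]
  rw [Finset.sum_singleton]
  simp only [add_assoc]

end Pool.Agent.Q293.RB
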