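import Pool.Agent.Q293.RB.Stm

/-!
# Project RB: one atom against two equal atoms (lemma job RB-DEL, helper65)
-/

set_option autoImplicit false

open Finset

namespace Pool.Agent.Q293.RB

namespace DelAux

theorem logub (t r : ℝ) (ht : 0 < t) (h0 : 0 ≤ r) (h1 : r ≤ 1)
    (h : t * (1 + r + r ^ 2 / 2 + r ^ 3 / 6 + r ^ 4 / 24 + r ^ 5 / 120 + r ^ 6 / 720 +
      r ^ 7 / 5040 + r ^ 8 * 9 / 322560) ≤ 1) : Real.log t ≤ -r := by
  have hb := Real.exp_bound' h0 h1 (n := 8) (by norm_num)
  have hb2 : Real.exp r ≤ 1 + r + r ^ 2 / 2 + r ^ 3 / 6 + r ^ 4 / 24 + r ^ 5 / 120 + r ^ 6 / 720 +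
      r ^ 7 / 5040 + r ^ 8 * 9 / 322560 := by
    refine hb.trans (le_of_eq ?_)
    simp only [Finset.sum_range_succ, Finset.sum_range_zero, Nat.factorial]
    norm_num
  rw [Real.log_le_iff_le_exp ht, Real.exp_neg]
  rw [le_inv_comm₀ ht (Real.exp_pos r)]
  refine hb2.trans ?_
  rw [le_inv_comm₀ (by positivity) ht]
  rw [← one_div, le_div_iff₀ (by positivity)]
  exact h

theorem loglb (t r : ℝ) (ht : 0 < t) (h0 : 0 ≤ r)
    (h : 1 ≤ t * (1 + r + r ^ 2 / 2 + r ^ 3 / 6 + r ^ 4 / 24 + r ^ 5 / 120 + r ^ 6 / 720 +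
      r ^ 7 / 5040)) : -r ≤ Real.log t := by
  have hb := Real.sum_le_exp_of_nonneg h0 8
  have hb2 : 1 + r + r ^ 2 / 2 + r ^ 3 / 6 + r ^ 4 / 24 + r ^ 5 / 120 + r ^ 6 / 720 +
      r ^ 7 / 5040 ≤ Real.exp r := by
    refine le_trans (le_of_eq ?_) hb
    simp only [Finset.sum_range_succ, Finset.sum_range_zero, Nat.factorial]
    norm_num
  rw [Real.le_log_iff_exp_le ht, Real.exp_neg]
  rw [inv_le_comm₀ (Real.exp_pos r) ht]
  refine le_trans ?_ hb2
  rw [← one_div, div_le_iff₀ ht, mul_comm]
  exact h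

/-- `u = 1/√3`. -/
noncomputable def u : ℝ := 1 / Real.sqrt 3

theorem u_pos : 0 < u := by unfold u; positivity

theorem u_sq : u ^ 2 = 1 / 3 := by
  unfold u
  rw [div_pow, Real.sq_sqrt (by norm_num)]
  norm_num

theorem u_lb : (57735 : ℝ) / 100000 < u := by
  have h := u_sq
  have h0 := u_pos
  nlinarith

theorem u_ub : u < (57736 : ℝ) / 100000 := by
  have h := u_sq
  have h0 := u_pos
  nlinarith

theorem cc_eq : cc = 2 - 2 * u := by unfold cc u; ring

theorem kk_eq : kk = 2 * u - 1 := by unfold kk u; ring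

theorem log_u : Real.log u = -(1 / 2) * Real.log 3 := by
  unfold u
  rw [Real.log_div (by norm_num) (by positivity), Real.log_one, Real.log_sqrt (by norm_num)]
  ring

/-- The function `D` with `E1 - E2 = m D(m)`. -/
noncomputable def D (m : ℝ) : ℝ :=
  Real.log 2 / 3 + cc / 3 * (m * Real.log m) +
    m * (-(cc / 6) * Real.log 2 - 5 / 6 * (kk * Real.log kk) - u / 2 * Real.log 3) +
    2 / 3 * (f (1 - cc * m) - f (1 - cc / 2 * m))

theorem E_sub (m : ℝ) (hm : 0 < m) : E1 m - E2 m = m * D m := by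
  have hu := u_pos
  have hk : 0 < kk := by rw [kk_eq]; have := u_lb; linarith
  unfold E1 E2 phi xi D
  have h1 : m - cc * m = kk * m := by rw [cc_eq, kk_eq]; ring
  have h2 : m - cc * (m / 2) = u * m := by rw [cc_eq]; ring
  have h3 : 1 - cc * (m / 2) = 1 - cc / 2 * m := by ring
  rw [h1, h2, h3]
  have h4 : f (kk * m) = kk * m * (Real.log kk + Real.log m) := by
    unfold f; rw [Real.log_mul hk.ne' hm.ne']
  have h5 : f (u * m) = u * m * (-(1 / 2) * Real.log 3 + Real.log m) := by
    unfold f; rw [Real.log_mul hu.ne' hm.ne', log_u]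
  have h6 : Real.log (m / 2) = Real.log m - Real.log 2 := Real.log_div hm.ne' (by norm_num)
  have h7 : f (m / 2) = m / 2 * (Real.log m - Real.log 2) := by unfold f; rw [h6]
  have h8 : f m = m * Real.log m := rfl
  rw [h4, h5, h6, h7, h8]
  have h9 : u = 1 - cc / 2 := by rw [cc_eq]; ring
  have h10 : kk = 1 - cc := by rw [kk_eq, cc_eq]; ring
  rw [h10, h9]
  ring

theorem D_convex : ConvexOn ℝ (Set.Icc (0 : ℝ) 1) D := by
  have hu1 := u_lb
  have hu2 := u_ub
  have hc0 : 0 < cc := by rw [cc_eq]; linarith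
  have hc1 : cc < 1 := by rw [cc_eq]; linarith
  refine convexOn_of_hasDerivWithinAt2_nonneg (convex_Icc 0 1)
    (f' := fun m => cc / 3 * (Real.log m + 1) +
      (-(cc / 6) * Real.log 2 - 5 / 6 * (kk * Real.log kk) - u / 2 * Real.log 3) +
      2 / 3 * (-cc * (Real.log (1 - cc * m) + 1) + cc / 2 * (Real.log (1 - cc / 2 * m) + 1)))
    (f'' := fun m => cc / 3 * m⁻¹ + 2 / 3 * (cc ^ 2 / (1 - cc * m) -
      cc ^ 2 / 4 / (1 - cc / 2 * m))) ?_ ?_ ?_ ?_
  · have hf : Continuous D := by
      unfold D f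
      have h1 : Continuous fun x : ℝ => x * Real.log x := Real.continuous_mul_log
      have h2 : Continuous fun x : ℝ => (1 - cc * x) * Real.log (1 - cc * x) :=
        h1.comp (by fun_prop : Continuous fun x : ℝ => 1 - cc * x)
      have h3 : Continuous fun x : ℝ => (1 - cc / 2 * x) * Real.log (1 - cc / 2 * x) :=
        h1.comp (by fun_prop : Continuous fun x : ℝ => 1 - cc / 2 * x)
      fun_prop
    exact hf.continuousOn
  · intro x hx
    rw [interior_Icc] at hx
    have hx0 : 0 < x := hx.1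
    have hx1 : x < 1 := hx.2
    have h1 : 0 < 1 - cc * x := by nlinarith
    have h2 : 0 < 1 - cc / 2 * x := by nlinarith
    have g1 : HasDerivAt (fun m : ℝ => m * Real.log m) (Real.log x + 1) x :=
      Real.hasDerivAt_mul_log hx0.ne'
    have g2 : HasDerivAt (fun m : ℝ => f (1 - cc * m)) (-cc * (Real.log (1 - cc * x) + 1)) x := by
      have := (Real.hasDerivAt_mul_log h1.ne').comp x
        (((hasDerivAt_id x).const_mul cc).const_sub 1)
      refine (this.congr_deriv ?_)
      ring
    have g3 : HasDerivAt (fun m : ℝ => f (1 - cc / 2 * m))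
        (-(cc / 2) * (Real.log (1 - cc / 2 * x) + 1)) x := by
      have := (Real.hasDerivAt_mul_log h2.ne').comp x
        (((hasDerivAt_id x).const_mul (cc / 2)).const_sub 1)
      refine (this.congr_deriv ?_)
      ring
    have g4 := (((g1.const_mul (cc / 3)).const_add (Real.log 2 / 3)).add
      ((hasDerivAt_id x).mul_const (-(cc / 6) * Real.log 2 - 5 / 6 * (kk * Real.log kk) -
        u / 2 * Real.log 3))).add ((g2.sub g3).const_mul (2 / 3))
    refine (g4.congr_deriv ?_).hasDerivWithinAt
    ring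
  · intro x hx
    rw [interior_Icc] at hx
    have hx0 : 0 < x := hx.1
    have hx1 : x < 1 := hx.2
    have h1 : 0 < 1 - cc * x := by nlinarith
    have h2 : 0 < 1 - cc / 2 * x := by nlinarith
    have g1 : HasDerivAt (fun m : ℝ => Real.log m) x⁻¹ x := Real.hasDerivAt_log hx0.ne'
    have g2 : HasDerivAt (fun m : ℝ => Real.log (1 - cc * m)) ((1 - cc * x)⁻¹ * (-cc)) x := by
      have := (Real.hasDerivAt_log h1.ne').comp x
        (((hasDerivAt_id x).const_mul cc).const_sub 1)
      refine (this.congr_deriv ?_)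
      ring
    have g3 : HasDerivAt (fun m : ℝ => Real.log (1 - cc / 2 * m))
        ((1 - cc / 2 * x)⁻¹ * (-(cc / 2))) x := by
      have := (Real.hasDerivAt_log h2.ne').comp x
        (((hasDerivAt_id x).const_mul (cc / 2)).const_sub 1)
      refine (this.congr_deriv ?_)
      ring
    have g4 := (((g1.add_const 1).const_mul (cc / 3)).add_const
      (-(cc / 6) * Real.log 2 - 5 / 6 * (kk * Real.log kk) - u / 2 * Real.log 3)).add
      ((((g2.add_const 1).const_mul (-cc)).add ((g3.add_const 1).const_mul (cc / 2))).const_mul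
        (2 / 3))
    refine (g4.congr_deriv ?_).hasDerivWithinAt
    rw [div_eq_mul_inv (cc ^ 2), div_eq_mul_inv (cc ^ 2 / 4)]
    ring
  · intro x hx
    rw [interior_Icc] at hx
    have hx0 : 0 < x := hx.1
    have hx1 : x < 1 := hx.2
    have h1 : 0 < 1 - cc * x := by nlinarith
    have h2 : 0 < 1 - cc / 2 * x := by nlinarith
    have h3 : cc ^ 2 / 4 / (1 - cc / 2 * x) ≤ cc ^ 2 / (1 - cc * x) := by
      rw [div_div, div_le_div_iff₀ (by positivity) h1]
      have : 0 ≤ cc ^ 2 := by positivity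
      nlinarith
    have h4 : 0 < x⁻¹ := by positivity
    have h5 : 0 ≤ cc / 3 * x⁻¹ := by positivity
    linarith

theorem mulneg (a a0 b b0 : ℝ) (h0 : 0 ≤ a0) (h1 : a0 ≤ a) (h2 : 0 ≤ b0) (h3 : b ≤ -b0) :
    a * b ≤ -(a0 * b0) := by nlinarith

theorem mulneg' (a a1 b b1 : ℝ) (h0 : 0 ≤ a) (h1 : a ≤ a1) (h2 : 0 ≤ b1) (h3 : -b1 ≤ b) :
    -(a1 * b1) ≤ a * b := by nlinarith

theorem cc_lb : (84528 : ℝ) / 100000 < cc := by rw [cc_eq]; have := u_ub; linarith

theorem cc_ub : cc < (84530 : ℝ) / 100000 := by rw [cc_eq]; have := u_lb; linarith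

theorem kk_lb : (15470 : ℝ) / 100000 < kk := by rw [kk_eq]; have := u_lb; linarith

theorem kk_ub : kk < (15472 : ℝ) / 100000 := by rw [kk_eq]; have := u_ub; linarith

theorem log_three_lb : (1098600 : ℝ) / 1000000 ≤ Real.log 3 := by
  have h1 := loglb (3 / 4) (28769 / 100000) (by norm_num) (by norm_num) (by norm_num)
  have h2 : Real.log (3 / 4) = Real.log 3 - 2 * Real.log 2 := by
    rw [Real.log_div (by norm_num) (by norm_num)]
    rw [show (4 : ℝ) = 2 ^ 2 by norm_num, Real.log_pow]
    norm_num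
  have h3 := Real.log_two_gt_d9
  linarith

theorem log_kk_lb : -(186628 : ℝ) / 100000 ≤ Real.log kk := by
  have h0 := kk_lb
  have h1 := loglb (4 * (15470 / 100000)) (47998 / 100000) (by norm_num) (by norm_num)
    (by norm_num)
  have h2 : Real.log (4 * (15470 / 100000)) ≤ Real.log (4 * kk) :=
    Real.log_le_log (by norm_num) (by linarith)
  have h3 : Real.log (4 * kk) = 2 * Real.log 2 + Real.log kk := by
    rw [Real.log_mul (by norm_num) (by linarith)]
    rw [show (4 : ℝ) = 2 ^ 2 by norm_num, Real.log_pow]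
    norm_num
  have h4 := Real.log_two_lt_d9
  linarith

theorem klk_lb : -((15472 : ℝ) / 100000 * (186628 / 100000)) ≤ kk * Real.log kk :=
  mulneg' kk _ _ _ (by have := kk_lb; linarith) kk_ub.le (by norm_num)
    (by have := log_kk_lb; linarith)

theorem uL3_lb : (57735 : ℝ) / 100000 * (1098600 / 1000000) ≤ u * Real.log 3 := by
  have h1 := u_lb
  have h2 := log_three_lb
  nlinarith

theorem cL2_lb : (84528 : ℝ) / 100000 * (6931471 / 10000000) ≤ cc * Real.log 2 := by
  have h1 := cc_lb
  have h2 := Real.log_two_gt_d9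
  nlinarith

theorem D_zero : D 0 ≤ 2311 / 10000 := by
  have h1 := Real.log_two_lt_d9
  unfold D f
  simp
  linarith

theorem D_one : D 1 ≤ 76 / 1000 := by
  have h1 := Real.log_two_lt_d9
  have h2 := klk_lb
  have h3 := uL3_lb
  have h4 := cL2_lb
  have e1 : 1 - cc * 1 = kk := by rw [cc_eq, kk_eq]; ring
  have e2 : 1 - cc / 2 * 1 = u := by rw [cc_eq]; ring
  unfold D
  rw [e1, e2]
  unfold f
  rw [log_u]
  simp only [Real.log_one, mul_zero, add_zero, one_mul]
  norm_num at h2 h3 h4 ⊢
  linarith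

theorem D_low : D (33 / 100) ≤ 0 := by
  have h1 := Real.log_two_lt_d9
  have h1' := Real.log_two_gt_d9
  have h2 := klk_lb
  have h3 := uL3_lb
  have h4 := cL2_lb
  have c1 := cc_lb
  have c2 := cc_ub
  have h6 : cc * Real.log (33 / 100) ≤ -(84528 / 100000 * (11086571 / 10000000)) := by
    refine mulneg _ _ _ _ (by norm_num) c1.le (by norm_num) ?_
    have g1 := logub (66 / 100) (41551 / 100000) (by norm_num) (by norm_num) (by norm_num)
      (by norm_num)
    have g2 : Real.log (66 / 100) = Real.log 2 + Real.log (33 / 100) := by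
      rw [← Real.log_mul (by norm_num) (by norm_num)]
      norm_num
    linarith
  have h7 : (1 - cc * (33 / 100)) * Real.log (1 - cc * (33 / 100)) ≤
      -(721051 / 1000000 * (32703 / 100000)) := by
    refine mulneg _ _ _ _ (by norm_num) (by linarith) (by norm_num) ?_
    have g1 := logub (7210576 / 10000000) (32703 / 100000) (by norm_num) (by norm_num)
      (by norm_num) (by norm_num)
    have g2 : Real.log (1 - cc * (33 / 100)) ≤ Real.log (7210576 / 10000000) :=
      Real.log_le_log (by linarith) (by linarith)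
    linarith
  have h8 : -(8605288 / 10000000 * (15022 / 100000)) ≤
      (1 - cc / 2 * (33 / 100)) * Real.log (1 - cc / 2 * (33 / 100)) := by
    refine mulneg' _ _ _ _ (by linarith) (by linarith) (by norm_num) ?_
    have g1 := loglb (8605255 / 10000000) (15022 / 100000) (by norm_num) (by norm_num)
      (by norm_num)
    have g2 : Real.log (8605255 / 10000000) ≤ Real.log (1 - cc / 2 * (33 / 100)) :=
      Real.log_le_log (by norm_num) (by linarith)
    linarith
  unfold D f
  norm_num at h2 h3 h4 h6 h7 h8 ⊢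
  linarith

theorem D_mid : D (85 / 100) ≤ 0 := by
  have h1 := Real.log_two_lt_d9
  have h1' := Real.log_two_gt_d9
  have h2 := klk_lb
  have h3 := uL3_lb
  have h4 := cL2_lb
  have c1 := cc_lb
  have c2 := cc_ub
  have h6 : cc * Real.log (85 / 100) ≤ -(84528 / 100000 * (16251 / 100000)) := by
    refine mulneg _ _ _ _ (by norm_num) c1.le (by norm_num) ?_
    have g1 := logub (85 / 100) (16251 / 100000) (by norm_num) (by norm_num) (by norm_num)
      (by norm_num)
    linarith
  have h7 : (1 - cc * (85 / 100)) * Real.log (1 - cc * (85 / 100)) ≤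
      -(281495 / 1000000 * (1267577 / 1000000)) := by
    refine mulneg _ _ _ _ (by norm_num) (by linarith) (by norm_num) ?_
    have g1 := logub (563024 / 1000000) (57443 / 100000) (by norm_num) (by norm_num)
      (by norm_num) (by norm_num)
    have g2 : Real.log (1 - cc * (85 / 100)) ≤ Real.log (281512 / 1000000) :=
      Real.log_le_log (by linarith) (by linarith)
    have g3 : Real.log (563024 / 1000000) = Real.log 2 + Real.log (281512 / 1000000) := by
      rw [← Real.log_mul (by norm_num) (by norm_num)]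
      norm_num
    linarith
  have h8 : -(640756 / 1000000 * (44513 / 100000)) ≤
      (1 - cc / 2 * (85 / 100)) * Real.log (1 - cc / 2 * (85 / 100)) := by
    refine mulneg' _ _ _ _ (by linarith) (by linarith) (by norm_num) ?_
    have g1 := loglb (6407475 / 10000000) (44513 / 100000) (by norm_num) (by norm_num)
      (by norm_num)
    have g2 : Real.log (6407475 / 10000000) ≤ Real.log (1 - cc / 2 * (85 / 100)) :=
      Real.log_le_log (by norm_num) (by linarith)
    linarith
  unfold D f
  norm_num at h2 h3 h4 h6 h7 h8 ⊢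
  linarith

/-- The chord inequality. -/
theorem chord (a b x : ℝ) (ha : 0 ≤ a) (hb : b ≤ 1) (hab : a < b) (h1 : a ≤ x) (h2 : x ≤ b) :
    (b - a) * D x ≤ (b - x) * D a + (x - a) * D b := by
  have m1 : a ∈ Set.Icc (0 : ℝ) 1 := ⟨ha, by linarith⟩
  have m2 : b ∈ Set.Icc (0 : ℝ) 1 := ⟨by linarith, hb⟩
  have n1 : 0 ≤ (b - x) / (b - a) := div_nonneg (by linarith) (by linarith)
  have n2 : 0 ≤ (x - a) / (b - a) := div_nonneg (by linarith) (by linarith)
  have n3 : (b - x) / (b - a) + (x - a) / (b - a) = 1 := by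
    rw [← add_div, div_eq_one_iff_eq (by linarith)]; ring
  have h := D_convex.2 m1 m2 n1 n2 n3
  have hne : b - a ≠ 0 := by linarith
  have e : ((b - x) / (b - a)) • a + ((x - a) / (b - a)) • b = x := by
    simp only [smul_eq_mul]; field_simp; ring
  rw [e] at h
  simp only [smul_eq_mul] at h
  have h3 := mul_le_mul_of_nonneg_left h (by linarith : (0 : ℝ) ≤ b - a)
  refine h3.trans (le_of_eq ?_)
  field_simp

end DelAux

open DelAux in
/-- DEL. One atom against two equal atoms. -/
theorem del : S_Del := by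
  have d0 := D_zero
  have d1 := D_low
  have d2 := D_mid
  have d3 := D_one
  refine ⟨?_, ?_, ?_⟩
  · intro m h0 h1
    rcases h0.eq_or_lt with rfl | hm
    · simp [E1, E2, phi]
    · rw [E_sub m hm]
      have h := chord 0 (33 / 100) m le_rfl (by norm_num) (by norm_num) h0 h1
      have h2 : D m ≤ (1 - m / (33 / 100)) * (2311 / 10000) := by
        have e1 : (33 / 100 - m) * D 0 ≤ (33 / 100 - m) * (2311 / 10000) :=
          mul_le_mul_of_nonneg_left d0 (by linarith)
        have e2 : (m - 0) * D (33 / 100) ≤ 0 :=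
          mul_nonpos_of_nonneg_of_nonpos (by linarith) d1
        linarith
      have h3 := mul_le_mul_of_nonneg_left h2 h0
      refine h3.trans (le_of_eq ?_)
      ring
  · intro m h0 h1
    have hm : 0 < m := by linarith
    have h := chord (33 / 100) (85 / 100) m (by norm_num) (by norm_num) (by norm_num) h0 h1
    have e1 : (85 / 100 - m) * D (33 / 100) ≤ 0 :=
      mul_nonpos_of_nonneg_of_nonpos (by linarith) d1
    have e2 : (m - 33 / 100) * D (85 / 100) ≤ 0 :=
      mul_nonpos_of_nonneg_of_nonpos (by linarith) d2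
    have h2 : D m ≤ 0 := by linarith
    have h3 := E_sub m hm
    nlinarith
  · intro m h0 h1
    have hm : 0 < m := by linarith
    rw [E_sub m hm]
    have h := chord (85 / 100) 1 m (by norm_num) (by norm_num) (by norm_num) h0 h1
    have e1 : (1 - m) * D (85 / 100) ≤ 0 :=
      mul_nonpos_of_nonneg_of_nonpos (by linarith) d2
    have e2 : (m - 85 / 100) * D 1 ≤ (m - 85 / 100) * (76 / 1000) :=
      mul_le_mul_of_nonneg_left d3 (by linarith)
    have h2 : D m ≤ 76 / 1000 * (m - 85 / 100) / (15 / 100) := by linarith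
    have h3 : 0 ≤ 76 / 1000 * (m - 85 / 100) / (15 / 100) := by
      apply div_nonneg _ (by norm_num)
      have : 0 ≤ m - 85 / 100 := by linarith
      positivity
    nlinarith

end Pool.Agent.Q293.RB
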