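import Pool.Agent.Q293.RB.Del

/-!
# Project RB: two equal atoms on both sides
-/

set_option autoImplicit false

open Finset

namespace Pool.Agent.Q293.RB

namespace GttAux

open DelAux

/-- The explicit form of `E2 m - (1 - m) f m`. -/
noncomputable def h0 (m : ℝ) : ℝ :=
  2 / 3 * ((m - (1 - u) * m ^ 2) * (Real.log (1 - (1 - u) * m) - Real.log m)) +
    (cc / 6 * Real.log 2 + kk * Real.log kk / 6 + u / 2 * Real.log 3) * m ^ 2 -
    Real.log 2 / 3 * m

/-- Its first derivative. -/
noncomputable def h1 (m : ℝ) : ℝ :=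
  2 / 3 * ((1 - 2 * (1 - u) * m) * (Real.log (1 - (1 - u) * m) - Real.log m) - 1) +
    2 * (cc / 6 * Real.log 2 + kk * Real.log kk / 6 + u / 2 * Real.log 3) * m -
    Real.log 2 / 3

/-- Its second derivative. -/
noncomputable def h2 (m : ℝ) : ℝ :=
  2 / 3 * (-(2 * (1 - u)) * (Real.log (1 - (1 - u) * m) - Real.log m) -
    (1 - 2 * (1 - u) * m) / (m * (1 - (1 - u) * m))) +
    2 * (cc / 6 * Real.log 2 + kk * Real.log kk / 6 + u / 2 * Real.log 3)

theorem w_pos {m : ℝ} (hm : 0 < m) (hm1 : m < 1) : 0 < 1 - (1 - u) * m := by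
  have := u_lb
  have := u_ub
  nlinarith

theorem h0_eq {m : ℝ} (hm : 0 < m) : E2 m - (1 - m) * f m = h0 m := by
  have hu := u_pos
  have e1 : m - cc * (m / 2) = u * m := by rw [cc_eq]; ring
  have e2 : 1 - cc * (m / 2) = 1 - (1 - u) * m := by rw [cc_eq]; ring
  have l1 : Real.log (m / 2) = Real.log m - Real.log 2 := Real.log_div hm.ne' (by norm_num)
  have l2 : Real.log (u * m) = -(1 / 2) * Real.log 3 + Real.log m := by
    rw [Real.log_mul hu.ne' hm.ne', log_u]
  unfold E2 xi h0 f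
  rw [e1, e2, l1, l2, cc_eq]
  ring

theorem hasDerivAt_h0 {m : ℝ} (hm : 0 < m) (hm1 : m < 1) : HasDerivAt h0 (h1 m) m := by
  have hw := w_pos hm hm1
  have hw0 : 1 - (1 - u) * m ≠ 0 := hw.ne'
  have hm0 : m ≠ 0 := hm.ne'
  have hid : HasDerivAt (fun s : ℝ => s) 1 m := hasDerivAt_id m
  have dl : HasDerivAt Real.log m⁻¹ m := Real.hasDerivAt_log hm.ne'
  have dw : HasDerivAt (fun s => 1 - (1 - u) * s) (-((1 - u) * 1)) m :=
    (hid.const_mul (1 - u)).const_sub 1
  have dlw := dw.log hw0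
  have d2 : HasDerivAt (fun s : ℝ => s ^ 2) (2 * m) m := by
    simpa using hasDerivAt_pow 2 m
  have h := ((((hid.sub (d2.const_mul (1 - u))).mul (dlw.sub dl)).const_mul (2 / 3)).add
    (d2.const_mul (cc / 6 * Real.log 2 + kk * Real.log kk / 6 + u / 2 * Real.log 3))).sub
    (hid.const_mul (Real.log 2 / 3))
  have h' : HasDerivAt h0 _ m := h
  refine h'.congr_deriv ?_
  unfold h1
  have key : (m - (1 - u) * m ^ 2) * (-((1 - u) * 1) / (1 - (1 - u) * m) - m⁻¹) = -1 := by
    have e1 : -((1 - u) * 1) / (1 - (1 - u) * m) * (1 - (1 - u) * m) = -((1 - u) * 1) :=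
      div_mul_cancel₀ _ hw0
    have e2 : m⁻¹ * m = 1 := inv_mul_cancel₀ hm0
    linear_combination m * e1 - (1 - (1 - u) * m) * e2
  simp only [Pi.sub_apply]
  linear_combination (2 / 3) * key

theorem hasDerivAt_h1 {m : ℝ} (hm : 0 < m) (hm1 : m < 1) : HasDerivAt h1 (h2 m) m := by
  have hw := w_pos hm hm1
  have hw0 : 1 - (1 - u) * m ≠ 0 := hw.ne'
  have hm0 : m ≠ 0 := hm.ne'
  have hid : HasDerivAt (fun s : ℝ => s) 1 m := hasDerivAt_id m
  have dl : HasDerivAt Real.log m⁻¹ m := Real.hasDerivAt_log hm.ne'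
  have dw : HasDerivAt (fun s => 1 - (1 - u) * s) (-((1 - u) * 1)) m :=
    (hid.const_mul (1 - u)).const_sub 1
  have dw2 : HasDerivAt (fun s => 1 - 2 * (1 - u) * s) (-(2 * (1 - u) * 1)) m :=
    (hid.const_mul (2 * (1 - u))).const_sub 1
  have dlw := dw.log hw0
  have h := ((((dw2.mul (dlw.sub dl)).sub_const 1).const_mul (2 / 3)).add
    (hid.const_mul (2 * (cc / 6 * Real.log 2 + kk * Real.log kk / 6 +
      u / 2 * Real.log 3)))).sub_const (Real.log 2 / 3)
  have h' : HasDerivAt h1 _ m := h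
  refine h'.congr_deriv ?_
  unfold h2
  have key : (1 - 2 * (1 - u) * m) * (-((1 - u) * 1) / (1 - (1 - u) * m) - m⁻¹) =
      -((1 - 2 * (1 - u) * m) / (m * (1 - (1 - u) * m))) := by
    field_simp
    ring
  simp only [Pi.sub_apply]
  linear_combination (2 / 3) * key

theorem log_half_sq : Real.log ((1 + u) ^ 2 / 4) =
    -Real.log 2 - 3 / 2 * Real.log 3 - Real.log kk := by
  have hu := u_pos
  have hk : 0 < kk := by have := kk_lb; linarith
  have e : (1 + u) ^ 2 / 4 * kk = u ^ 3 / 2 := by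
    rw [kk_eq]
    have := u_sq
    have h3 : u ^ 3 = u / 3 := by rw [pow_succ, this]; ring
    have e2 : (1 + u) ^ 2 / 4 * (2 * u - 1) = (2 * u ^ 3 + 3 * u ^ 2 - 1) / 4 := by ring
    rw [e2, this]
    ring
  have e3 : (1 + u) ^ 2 / 4 = u ^ 3 / 2 / kk := by
    rw [← e]; field_simp
  rw [e3, Real.log_div (by positivity) hk.ne', Real.log_div (by positivity) (by norm_num),
    Real.log_pow, log_u]
  push_cast
  ring

theorem curv {m : ℝ} (hm : 0 < m) (hm1 : m < 1) : h2 m + h2 (1 - m) ≤ -(97 / 100) := by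
  have hw := w_pos hm hm1
  have hn : 0 < 1 - m := by linarith
  have hv := w_pos hn (by linarith)
  have hu := u_lb
  have hu' := u_ub
  have usq := u_sq
  set q : ℝ := m * (1 - m) with hq
  have q0 : 0 < q := mul_pos hm hn
  have q1 : q ≤ 1 / 4 := by rw [hq]; nlinarith [sq_nonneg (m - 1 / 2)]
  set X : ℝ := u + (1 - u) ^ 2 * q with hX
  have eX : (1 - (1 - u) * m) * (1 - (1 - u) * (1 - m)) = X := by rw [hX, hq]; ring
  have X0 : 0 < X := by rw [← eX]; exact mul_pos hw hv
  have Xlb : 57 / 100 ≤ X := by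
    have : 0 ≤ (1 - u) ^ 2 * q := by positivity
    linarith
  have eL : h2 m + h2 (1 - m) = 2 / 3 * (-(2 * (1 - u)) * (Real.log X - Real.log q) - 1 / q +
      (1 - u) * (1 + u) / X) +
      4 * (cc / 6 * Real.log 2 + kk * Real.log kk / 6 + u / 2 * Real.log 3) := by
    rw [← eX, Real.log_mul hw.ne' hv.ne', hq, Real.log_mul hm.ne' hn.ne']
    unfold h2
    have k1 : (1 - 2 * (1 - u) * m) / (m * (1 - (1 - u) * m)) +
        (1 - 2 * (1 - u) * (1 - m)) / ((1 - m) * (1 - (1 - u) * (1 - m))) =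
        1 / (m * (1 - m)) - (1 - u) * (1 + u) / ((1 - (1 - u) * m) *
          (1 - (1 - u) * (1 - m))) := by
      have a1 := hw.ne'
      have a2 := hv.ne'
      have a3 := hm.ne'
      have a4 := hn.ne'
      field_simp
      ring
    linear_combination (-2 / 3) * k1
  have X1 : (1 + u) ^ 2 / 4 - X = (1 - u) ^ 2 * (1 / 4 - q) := by rw [hX]; ring
  have hY : 0 < (1 + u) ^ 2 / 4 := by positivity
  have lX : -Real.log X ≤ -Real.log ((1 + u) ^ 2 / 4) + (1 / 4 - q) := by
    have h := Real.log_le_sub_one_of_pos (div_pos hY X0)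
    rw [Real.log_div hY.ne' X0.ne'] at h
    have h2 : (1 + u) ^ 2 / 4 / X - 1 ≤ 1 / 4 - q := by
      rw [div_sub_one X0.ne', div_le_iff₀ X0, X1]
      have : (1 - u) ^ 2 ≤ X := by nlinarith
      have h4 : 0 ≤ 1 / 4 - q := by linarith
      nlinarith
    linarith
  have lq : Real.log q ≤ -(2 * Real.log 2) := by
    have h := Real.log_le_log q0 q1
    have e : Real.log (1 / 4 : ℝ) = -(2 * Real.log 2) := by
      rw [show (1 / 4 : ℝ) = (2 ^ 2)⁻¹ by norm_num, Real.log_inv, Real.log_pow]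
      push_cast
      ring
    linarith
  have lqi : -(1 / q) ≤ -4 - 16 * (1 / 4 - q) := by
    have : 4 + 16 * (1 / 4 - q) ≤ 1 / q := by
      rw [le_div_iff₀ q0]
      nlinarith [sq_nonneg (q - 1 / 4)]
    linarith
  have lXi : (1 - u) * (1 + u) / X ≤ 8 - 12 * u + 2 * (1 / 4 - q) := by
    rw [div_le_iff₀ X0]
    have e1 : (1 - u) * (1 + u) = 2 / 3 := by linear_combination -usq
    have e2 : X = (1 + u) ^ 2 / 4 - (1 - u) ^ 2 * (1 / 4 - q) := by linarith
    have e3 : (8 - 12 * u) * ((1 + u) ^ 2 / 4) = 2 / 3 := by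
      have h3 : u ^ 3 = u / 3 := by rw [pow_succ, usq]; ring
      linear_combination (-3) * h3 - 4 * usq
    have e4 : (8 - 12 * u) * X = 2 / 3 - (8 - 12 * u) * (1 - u) ^ 2 * (1 / 4 - q) := by
      rw [e2]; linear_combination e3
    have e5 : (8 - 12 * u) * (1 - u) ^ 2 ≤ 2 * X := by
      have : (1 - u) ^ 2 ≤ 1 / 5 := by nlinarith
      nlinarith
    have h4 : 0 ≤ 1 / 4 - q := by linarith
    rw [e1]
    nlinarith
  have hnum : Real.log kk + 3 * Real.log 3 ≤ 2 * (6931471808 / 10000000000) + 45 / 1000 := by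
    have hk : 0 < kk := by have := kk_lb; linarith
    have e : Real.log kk + 3 * Real.log 3 = Real.log (27 * kk) := by
      rw [show (27 : ℝ) = 3 ^ 3 by norm_num, Real.log_mul (by norm_num) hk.ne', Real.log_pow]
      push_cast
      ring
    have e2 : Real.log (27 * kk) ≤ Real.log 4 + (27 * kk / 4 - 1) := by
      have h := Real.log_le_sub_one_of_pos (show 0 < 27 * kk / 4 by positivity)
      rw [Real.log_div (by positivity) (by norm_num)] at h
      linarith
    have e3 : Real.log 4 = 2 * Real.log 2 := by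
      rw [show (4 : ℝ) = 2 ^ 2 by norm_num, Real.log_pow]
      push_cast
      ring
    have h2 := Real.log_two_lt_d9
    have := kk_ub
    rw [e]
    linarith
  have hd : 0 ≤ 2 * (1 - u) := by linarith
  have s1 : -(2 * (1 - u)) * (Real.log X - Real.log q) ≤
      2 * (1 - u) * (Real.log 2 + 3 / 2 * Real.log 3 + Real.log kk + (1 / 4 - q) -
        2 * Real.log 2) := by
    rw [log_half_sq] at lX
    have := mul_le_mul_of_nonneg_left (show -Real.log X + Real.log q ≤
      Real.log 2 + 3 / 2 * Real.log 3 + Real.log kk + (1 / 4 - q) - 2 * Real.log 2 by linarith) hd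
    linarith
  have s2 : 2 * (1 - u) * (1 / 4 - q) ≤ 1 / 4 - q := by
    have h4 : 0 ≤ 1 / 4 - q := by linarith
    nlinarith
  rw [eL]
  have e7 : 4 * (cc / 6 * Real.log 2 + kk * Real.log kk / 6 + u / 2 * Real.log 3) =
      2 / 3 * ((2 - 2 * u) * Real.log 2 + (2 * u - 1) * Real.log kk + 3 * u * Real.log 3) := by
    rw [cc_eq, show kk * Real.log kk = (2 * u - 1) * Real.log kk by rw [← kk_eq]]
    ring
  rw [e7]
  have h4 : 0 ≤ 1 / 4 - q := by linarith
  nlinarith

/-- The function of GTT plus the quadratic correction. -/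
noncomputable def g (m : ℝ) : ℝ := h0 m + h0 (1 - m) + 485 / 1000 * (m - 1 / 2) ^ 2

/-- Its derivative. -/
noncomputable def g1 (m : ℝ) : ℝ := h1 m - h1 (1 - m) + 97 / 100 * (m - 1 / 2)

theorem hasDerivAt_g {m : ℝ} (hm : 0 < m) (hm1 : m < 1) : HasDerivAt g (g1 m) m := by
  have hid : HasDerivAt (fun s : ℝ => s) 1 m := hasDerivAt_id m
  have a := hasDerivAt_h0 hm hm1
  have b := hasDerivAt_h0 (m := 1 - m) (by linarith) (by linarith)
  have b' : HasDerivAt (fun s => h0 (1 - s)) (h1 (1 - m) * (-1)) m :=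
    b.comp m (hid.const_sub 1)
  have c : HasDerivAt (fun s : ℝ => (s - 1 / 2) ^ 2) _ m := (hid.sub_const (1 / 2)).pow 2
  have h := (a.add b').add (c.const_mul (485 / 1000))
  have h' : HasDerivAt g _ m := h
  refine h'.congr_deriv ?_
  unfold g1
  simp only [Nat.cast_ofNat, Nat.add_one_sub_one, pow_one]
  ring

theorem hasDerivAt_g1 {m : ℝ} (hm : 0 < m) (hm1 : m < 1) :
    HasDerivAt g1 (h2 m + h2 (1 - m) + 97 / 100) m := by
  have hid : HasDerivAt (fun s : ℝ => s) 1 m := hasDerivAt_id m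
  have a := hasDerivAt_h1 hm hm1
  have b := hasDerivAt_h1 (m := 1 - m) (by linarith) (by linarith)
  have b' : HasDerivAt (fun s => h1 (1 - s)) (h2 (1 - m) * (-1)) m :=
    b.comp m (hid.const_sub 1)
  have h := (a.sub b').add ((hid.sub_const (1 / 2)).const_mul (97 / 100))
  have h' : HasDerivAt g1 _ m := h
  refine h'.congr_deriv ?_
  ring

theorem g1_anti {x y : ℝ} (hx : 0 < x) (hxy : x ≤ y) (hy : y < 1) : g1 y ≤ g1 x := by
  have h : AntitoneOn g1 (Set.Icc x y) := by
    refine antitoneOn_of_deriv_nonpos (convex_Icc x y) ?_ ?_ ?_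
    · intro t ht
      exact (hasDerivAt_g1 (by linarith [ht.1]) (by linarith [ht.2])).continuousAt.continuousWithinAt
    · intro t ht
      rw [interior_Icc] at ht
      exact (hasDerivAt_g1 (by linarith [ht.1])
        (by linarith [ht.2])).differentiableAt.differentiableWithinAt
    · intro t ht
      rw [interior_Icc] at ht
      rw [(hasDerivAt_g1 (by linarith [ht.1]) (by linarith [ht.2])).deriv]
      have := curv (m := t) (by linarith [ht.1]) (by linarith [ht.2])
      linarith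
  exact h (Set.left_mem_Icc.2 hxy) (Set.right_mem_Icc.2 hxy) hxy

theorem g_le_half {m : ℝ} (hm : 0 < m) (hm1 : m ≤ 1 / 2) : g m ≤ g (1 / 2) := by
  have h : MonotoneOn g (Set.Icc m (1 / 2)) := by
    refine monotoneOn_of_deriv_nonneg (convex_Icc m (1 / 2)) ?_ ?_ ?_
    · intro t ht
      exact (hasDerivAt_g (by linarith [ht.1]) (by linarith [ht.2])).continuousAt.continuousWithinAt
    · intro t ht
      rw [interior_Icc] at ht
      exact (hasDerivAt_g (by linarith [ht.1])
        (by linarith [ht.2])).differentiableAt.differentiableWithinAt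
    · intro t ht
      rw [interior_Icc] at ht
      rw [(hasDerivAt_g (by linarith [ht.1]) (by linarith [ht.2])).deriv]
      have h1 := g1_anti (x := t) (y := 1 / 2) (by linarith [ht.1]) (by linarith [ht.2])
        (by norm_num)
      have h2 : g1 (1 / 2) = 0 := by
        unfold g1
        rw [show (1 : ℝ) - 1 / 2 = 1 / 2 by norm_num]
        ring
      linarith
  exact h (Set.left_mem_Icc.2 hm1) (Set.right_mem_Icc.2 hm1) hm1

theorem g_symm (m : ℝ) : g (1 - m) = g m := by
  unfold g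
  rw [show 1 - (1 - m) = m by ring]
  ring

theorem g_half : g (1 / 2) = V / 3 := by
  have hu := u_pos
  have hk : 0 < kk := by have := kk_lb; linarith
  have hV : V = -(3 / 4) * (Real.log 3 + Real.log kk) := by
    unfold V
    rw [← Real.log_mul (by norm_num) hk.ne']
    have e : 1 + 2 / Real.sqrt 3 = (3 * kk)⁻¹ := by
      have e1 : 1 + 2 / Real.sqrt 3 = 1 + 2 * u := by unfold u; ring
      rw [e1]
      refine eq_inv_of_mul_eq_one_left ?_
      rw [kk_eq]
      linear_combination 12 * u_sq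
    rw [e, Real.log_inv]
    ring
  have l1 : Real.log (1 - (1 - u) * (1 / 2)) =
      1 / 2 * (-Real.log 2 - 3 / 2 * Real.log 3 - Real.log kk) := by
    rw [← log_half_sq]
    have e : (1 + u) ^ 2 / 4 = (1 - (1 - u) * (1 / 2)) ^ 2 := by ring
    rw [e, Real.log_pow]
    push_cast
    ring
  have l2 : Real.log (1 / 2 : ℝ) = -Real.log 2 := by
    rw [one_div, Real.log_inv]
  unfold g h0
  rw [show (1 : ℝ) - 1 / 2 = 1 / 2 by norm_num, l1, l2, hV, cc_eq,
    show kk * Real.log kk = (2 * u - 1) * Real.log kk by rw [← kk_eq]]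
  ring

end GttAux

open GttAux in
theorem gtt : S_GTT := by
  intro m hm hm1
  have hn : 0 < 1 - m := by linarith
  have e1 := h0_eq hm
  have e2 := h0_eq hn
  have hg : g m ≤ V / 3 := by
    rw [← g_half]
    rcases le_total m (1 / 2) with h | h
    · exact g_le_half hm h
    · rw [← g_symm]
      exact g_le_half hn (by linarith)
  unfold g at hg
  rw [show 1 - (1 - m) = m by ring] at e2
  rw [← e1, ← e2] at hg
  linarith

end Pool.Agent.Q293.RB
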