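import Pool.Agent.Q293.RB.Stm

/-!
# Project RB: LOW, the product of the four even atoms
-/

set_option autoImplicit false

open Finset

namespace Pool.Agent.Q293.RB

namespace LowAux

/-- One atom of a mixture. -/
noncomputable def T (w x1 x2 x3 y1 y2 y3 : ℝ) : ℝ := w * (x1 * x2 * x3) + (1 - w) * (y1 * y2 * y3)

/-- The product of the even atoms of a mixture. -/
noncomputable def E (w a1 a2 a3 b1 b2 b3 : ℝ) : ℝ :=
  T w (1 - a1) (1 - a2) (1 - a3) (1 - b1) (1 - b2) (1 - b3) *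
  T w (1 - a1) a2 a3 (1 - b1) b2 b3 *
  T w a1 (1 - a2) a3 b1 (1 - b2) b3 *
  T w a1 a2 (1 - a3) b1 b2 (1 - b3)

/-- The product of the odd atoms of a mixture. -/
noncomputable def O (w a1 a2 a3 b1 b2 b3 : ℝ) : ℝ :=
  T w a1 a2 a3 b1 b2 b3 *
  T w a1 (1 - a2) (1 - a3) b1 (1 - b2) (1 - b3) *
  T w (1 - a1) a2 (1 - a3) (1 - b1) b2 (1 - b3) *
  T w (1 - a1) (1 - a2) a3 (1 - b1) (1 - b2) b3

theorem T_swap (w x1 x2 x3 y1 y2 y3 : ℝ) : T (1 - w) x1 x2 x3 y1 y2 y3 =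
    T w y1 y2 y3 x1 x2 x3 := by unfold T; ring

theorem cube_root (x : ℝ) (hx : 0 ≤ x) : ∃ y : ℝ, 0 ≤ y ∧ y ^ 3 = x := by
  refine ⟨x ^ ((1 : ℝ) / 3), Real.rpow_nonneg hx _, ?_⟩
  rw [← Real.rpow_natCast, ← Real.rpow_mul hx]
  norm_num

theorem le_of_cube {x y : ℝ} (hy : 0 ≤ y) (h : x ^ 3 ≤ y ^ 3) : x ≤ y := by
  by_contra hc
  push Not at hc
  have := pow_lt_pow_left₀ hc hy (n := 3) (by norm_num)
  linarith

theorem amgm3 {x y z : ℝ} (hx : 0 ≤ x) (hy : 0 ≤ y) (hz : 0 ≤ z) :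
    27 * (x * y * z) ≤ (x + y + z) ^ 3 := by
  nlinarith [mul_nonneg hx (sq_nonneg (y - z)), mul_nonneg hy (sq_nonneg (x - z)),
    mul_nonneg hz (sq_nonneg (x - y)), mul_nonneg hx (sq_nonneg (x - y)),
    mul_nonneg hx (sq_nonneg (x - z)), mul_nonneg hy (sq_nonneg (y - x)),
    mul_nonneg hy (sq_nonneg (y - z)), mul_nonneg hz (sq_nonneg (z - x)),
    mul_nonneg hz (sq_nonneg (z - y))]

/-- The optimisation. -/
theorem opt {e t y1 y2 y3 o1 o2 o3 : ℝ} (ht : 0 ≤ t) (h1 : 0 ≤ y1) (h2 : 0 ≤ y2)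
    (h3 : 0 ≤ y3) (g1 : 0 ≤ o1) (g2 : 0 ≤ o2) (g3 : 0 ≤ o3)
    (hs : e + (y1 + y2 + y3) + (o1 + o2 + o3) + t = 1) (c1 : y2 * y3 ≤ t * o1)
    (c2 : y1 * y3 ≤ t * o2) (c3 : y1 * y2 ≤ t * o3) :
    e * y1 * y2 * y3 ≤ (2 * Real.sqrt 3 - 3) ^ 3 / 256 := by
  obtain ⟨Y, hY, hY3⟩ := cube_root (y1 * y2 * y3) (by positivity)
  have hr : 0 ≤ Real.sqrt 3 := Real.sqrt_nonneg 3
  have hr2 : Real.sqrt 3 ^ 2 = 3 := Real.sq_sqrt (by norm_num)
  have hr3 : (3 : ℝ) / 2 < Real.sqrt 3 := by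
    rw [Real.lt_sqrt (by norm_num)]
    norm_num
  set r := Real.sqrt 3 with hrdef
  have a1 : 3 * Y ≤ y1 + y2 + y3 := by
    apply le_of_cube (by positivity)
    have := amgm3 h1 h2 h3
    rw [mul_pow, hY3]
    linarith
  have a2 : 3 * Y ^ 2 ≤ y1 * y2 + y1 * y3 + y2 * y3 := by
    apply le_of_cube (by positivity)
    have := amgm3 (mul_nonneg h1 h2) (mul_nonneg h1 h3) (mul_nonneg h2 h3)
    have e1 : (3 * Y ^ 2) ^ 3 = 27 * (y1 * y2 * y3) ^ 2 := by rw [← hY3]; ring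
    rw [e1]
    have e2 : y1 * y2 * (y1 * y3) * (y2 * y3) = (y1 * y2 * y3) ^ 2 := by ring
    rw [e2] at this
    exact this
  have a3 : 2 * r * Y ≤ t + (o1 + o2 + o3) := by
    have hR : 0 ≤ t + (o1 + o2 + o3) := by positivity
    refine abs_le_of_sq_le_sq' ?_ hR |>.2
    have e1 : (2 * r * Y) ^ 2 = 12 * Y ^ 2 := by
      have : (2 * r * Y) ^ 2 = 4 * r ^ 2 * Y ^ 2 := by ring
      rw [this, hr2]
      ring
    rw [e1]
    have e2 : 3 * Y ^ 2 ≤ t * (o1 + o2 + o3) := by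
      have : t * (o1 + o2 + o3) = t * o1 + t * o2 + t * o3 := by ring
      linarith
    nlinarith [sq_nonneg (t - (o1 + o2 + o3))]
  have a4 : e + (3 + 2 * r) * Y ≤ 1 := by nlinarith
  set z := (3 + 2 * r) * Y with hz
  have hz0 : 0 ≤ z := by positivity
  have hYz : Y = z * (2 * r - 3) / 3 := by
    rw [hz]
    have : (3 + 2 * r) * Y * (2 * r - 3) = (4 * r ^ 2 - 9) * Y := by ring
    rw [this, hr2]
    ring
  have b1 : e * z ^ 3 ≤ 27 / 256 := by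
    have c1 : e * z ^ 3 ≤ (1 - z) * z ^ 3 :=
      mul_le_mul_of_nonneg_right (by linarith) (by positivity)
    have c2 : (1 - z) * z ^ 3 = 27 / 256 - (z - 3 / 4) ^ 2 * (z ^ 2 + z / 2 + 3 / 16) := by ring
    have c3 : 0 ≤ (z - 3 / 4) ^ 2 * (z ^ 2 + z / 2 + 3 / 16) := by positivity
    linarith
  have hk : 0 ≤ 2 * r - 3 := by linarith
  have fin : e * y1 * y2 * y3 = e * z ^ 3 * ((2 * r - 3) ^ 3 / 27) := by
    have : e * y1 * y2 * y3 = e * Y ^ 3 := by rw [hY3]; ring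
    rw [this, hYz]
    ring
  rw [fin]
  have hk3 : 0 ≤ (2 * r - 3) ^ 3 / 27 := by positivity
  calc e * z ^ 3 * ((2 * r - 3) ^ 3 / 27) ≤ 27 / 256 * ((2 * r - 3) ^ 3 / 27) :=
        mul_le_mul_of_nonneg_right b1 hk3
    _ = (2 * r - 3) ^ 3 / 256 := by ring

/-- The ordered case, even atoms. -/
theorem ordE {w a1 a2 a3 b1 b2 b3 : ℝ} (hw : 0 ≤ w) (hw1 : w ≤ 1)
    (hb1 : 0 ≤ b1) (hb2 : 0 ≤ b2) (hb3 : 0 ≤ b3) (h1 : b1 ≤ a1) (h2 : b2 ≤ a2) (h3 : b3 ≤ a3)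
    (ha1 : a1 ≤ 1) (ha2 : a2 ≤ 1) (ha3 : a3 ≤ 1) :
    E w a1 a2 a3 b1 b2 b3 ≤ (2 * Real.sqrt 3 - 3) ^ 3 / 256 := by
  have w' : 0 ≤ 1 - w := by linarith
  have p1 : 0 ≤ a1 := by linarith
  have p2 : 0 ≤ a2 := by linarith
  have p3 : 0 ≤ a3 := by linarith
  have q1 : 0 ≤ 1 - a1 := by linarith
  have q2 : 0 ≤ 1 - a2 := by linarith
  have q3 : 0 ≤ 1 - a3 := by linarith
  have r1 : 0 ≤ 1 - b1 := by linarith
  have r2 : 0 ≤ 1 - b2 := by linarith
  have r3 : 0 ≤ 1 - b3 := by linarith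
  have d1 : 0 ≤ a1 - b1 := by linarith
  have d2 : 0 ≤ a2 - b2 := by linarith
  have d3 : 0 ≤ a3 - b3 := by linarith
  unfold E T
  refine opt (t := w * (a1 * a2 * a3) + (1 - w) * (b1 * b2 * b3))
    (o1 := w * (a1 * (1 - a2) * (1 - a3)) + (1 - w) * (b1 * (1 - b2) * (1 - b3)))
    (o2 := w * ((1 - a1) * a2 * (1 - a3)) + (1 - w) * ((1 - b1) * b2 * (1 - b3)))
    (o3 := w * ((1 - a1) * (1 - a2) * a3) + (1 - w) * ((1 - b1) * (1 - b2) * b3))
    (by positivity) (by positivity) (by positivity) (by positivity)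
    (by positivity) (by positivity) (by positivity) (by ring) ?_ ?_ ?_
  · have : 0 ≤ w * (1 - w) * (a1 * b1) * ((a2 - b2) * (a3 - b3)) := by positivity
    linarith [show (w * (a1 * a2 * a3) + (1 - w) * (b1 * b2 * b3)) *
      (w * (a1 * (1 - a2) * (1 - a3)) + (1 - w) * (b1 * (1 - b2) * (1 - b3))) -
      (w * (a1 * (1 - a2) * a3) + (1 - w) * (b1 * (1 - b2) * b3)) *
      (w * (a1 * a2 * (1 - a3)) + (1 - w) * (b1 * b2 * (1 - b3))) =
      w * (1 - w) * (a1 * b1) * ((a2 - b2) * (a3 - b3)) by ring]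
  · have : 0 ≤ w * (1 - w) * (a2 * b2) * ((a1 - b1) * (a3 - b3)) := by positivity
    linarith [show (w * (a1 * a2 * a3) + (1 - w) * (b1 * b2 * b3)) *
      (w * ((1 - a1) * a2 * (1 - a3)) + (1 - w) * ((1 - b1) * b2 * (1 - b3))) -
      (w * ((1 - a1) * a2 * a3) + (1 - w) * ((1 - b1) * b2 * b3)) *
      (w * (a1 * a2 * (1 - a3)) + (1 - w) * (b1 * b2 * (1 - b3))) =
      w * (1 - w) * (a2 * b2) * ((a1 - b1) * (a3 - b3)) by ring]
  · have : 0 ≤ w * (1 - w) * (a3 * b3) * ((a1 - b1) * (a2 - b2)) := by positivity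
    linarith [show (w * (a1 * a2 * a3) + (1 - w) * (b1 * b2 * b3)) *
      (w * ((1 - a1) * (1 - a2) * a3) + (1 - w) * ((1 - b1) * (1 - b2) * b3)) -
      (w * ((1 - a1) * a2 * a3) + (1 - w) * ((1 - b1) * b2 * b3)) *
      (w * (a1 * (1 - a2) * a3) + (1 - w) * (b1 * (1 - b2) * b3)) =
      w * (1 - w) * (a3 * b3) * ((a1 - b1) * (a2 - b2)) by ring]

/-- The ordered case, odd atoms. -/
theorem ordO {w a1 a2 a3 b1 b2 b3 : ℝ} (hw : 0 ≤ w) (hw1 : w ≤ 1)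
    (hb1 : 0 ≤ b1) (hb2 : 0 ≤ b2) (hb3 : 0 ≤ b3) (h1 : b1 ≤ a1) (h2 : b2 ≤ a2) (h3 : b3 ≤ a3)
    (ha1 : a1 ≤ 1) (ha2 : a2 ≤ 1) (ha3 : a3 ≤ 1) :
    O w a1 a2 a3 b1 b2 b3 ≤ (2 * Real.sqrt 3 - 3) ^ 3 / 256 := by
  have h := ordE (w := 1 - w) (a1 := 1 - b1) (a2 := 1 - b2) (a3 := 1 - b3) (b1 := 1 - a1)
    (b2 := 1 - a2) (b3 := 1 - a3) (by linarith) (by linarith) (by linarith) (by linarith)
    (by linarith) (by linarith) (by linarith) (by linarith) (by linarith) (by linarith)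
    (by linarith)
  refine le_trans (le_of_eq ?_) h
  unfold E O
  simp only [sub_sub_cancel, T_swap]

theorem gen {w a1 a2 a3 b1 b2 b3 : ℝ} (hw : 0 ≤ w) (hw1 : w ≤ 1)
    (ha1 : 0 ≤ a1) (ha1' : a1 ≤ 1) (ha2 : 0 ≤ a2) (ha2' : a2 ≤ 1) (ha3 : 0 ≤ a3) (ha3' : a3 ≤ 1)
    (hb1 : 0 ≤ b1) (hb1' : b1 ≤ 1) (hb2 : 0 ≤ b2) (hb2' : b2 ≤ 1) (hb3 : 0 ≤ b3) (hb3' : b3 ≤ 1) :
    E w a1 a2 a3 b1 b2 b3 ≤ (2 * Real.sqrt 3 - 3) ^ 3 / 256 := by
  rcases le_total b1 a1 with h1 | h1 <;> rcases le_total b2 a2 with h2 | h2 <;>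
    rcases le_total b3 a3 with h3 | h3
  · exact ordE hw hw1 hb1 hb2 hb3 h1 h2 h3 ha1' ha2' ha3'
  · refine le_trans (le_of_eq ?_) (ordO (w := w) (a1 := a1) (a2 := a2) (a3 := 1 - a3) (b1 := b1)
      (b2 := b2) (b3 := 1 - b3) hw hw1 (by linarith) (by linarith) (by linarith) (by linarith)
      (by linarith) (by linarith) (by linarith) (by linarith) (by linarith))
    unfold E O
    simp only [sub_sub_cancel]
    ring
  · refine le_trans (le_of_eq ?_) (ordO (w := w) (a1 := a1) (a2 := 1 - a2) (a3 := a3) (b1 := b1)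
      (b2 := 1 - b2) (b3 := b3) hw hw1 (by linarith) (by linarith) (by linarith) (by linarith)
      (by linarith) (by linarith) (by linarith) (by linarith) (by linarith))
    unfold E O
    simp only [sub_sub_cancel]
    ring
  · refine le_trans (le_of_eq ?_) (ordE (w := w) (a1 := a1) (a2 := 1 - a2) (a3 := 1 - a3)
      (b1 := b1) (b2 := 1 - b2) (b3 := 1 - b3) hw hw1 (by linarith) (by linarith) (by linarith)
      (by linarith) (by linarith) (by linarith) (by linarith) (by linarith) (by linarith))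
    unfold E
    simp only [sub_sub_cancel]
    ring
  · refine le_trans (le_of_eq ?_) (ordO (w := w) (a1 := 1 - a1) (a2 := a2) (a3 := a3)
      (b1 := 1 - b1) (b2 := b2) (b3 := b3) hw hw1 (by linarith) (by linarith) (by linarith)
      (by linarith) (by linarith) (by linarith) (by linarith) (by linarith) (by linarith))
    unfold E O
    simp only [sub_sub_cancel]
    ring
  · refine le_trans (le_of_eq ?_) (ordE (w := w) (a1 := 1 - a1) (a2 := a2) (a3 := 1 - a3)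
      (b1 := 1 - b1) (b2 := b2) (b3 := 1 - b3) hw hw1 (by linarith) (by linarith) (by linarith)
      (by linarith) (by linarith) (by linarith) (by linarith) (by linarith) (by linarith))
    unfold E
    simp only [sub_sub_cancel]
    ring
  · refine le_trans (le_of_eq ?_) (ordE (w := w) (a1 := 1 - a1) (a2 := 1 - a2) (a3 := a3)
      (b1 := 1 - b1) (b2 := 1 - b2) (b3 := b3) hw hw1 (by linarith) (by linarith) (by linarith)
      (by linarith) (by linarith) (by linarith) (by linarith) (by linarith) (by linarith))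
    unfold E
    simp only [sub_sub_cancel]
    ring
  · refine le_trans (le_of_eq ?_) (ordO (w := w) (a1 := 1 - a1) (a2 := 1 - a2) (a3 := 1 - a3)
      (b1 := 1 - b1) (b2 := 1 - b2) (b3 := 1 - b3) hw hw1 (by linarith) (by linarith)
      (by linarith) (by linarith) (by linarith) (by linarith) (by linarith) (by linarith)
      (by linarith))
    unfold E O
    simp only [sub_sub_cancel]

end LowAux

open LowAux in
theorem low : S_Low := by
  intro w a b hw hw1 ha hb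
  refine le_trans (le_of_eq ?_) (gen (w := w) (a1 := a 0) (a2 := a 1) (a3 := a 2) (b1 := b 0)
    (b2 := b 1) (b3 := b 2) hw hw1 (ha 0).1 (ha 0).2 (ha 1).1 (ha 1).2 (ha 2).1 (ha 2).2
    (hb 0).1 (hb 0).2 (hb 1).1 (hb 1).2 (hb 2).1 (hb 2).2)
  simp [E, T, mix, prodLaw, Fin.prod_univ_three]

end Pool.Agent.Q293.RB
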