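import Pool.Agent.Q293.RB.Stm

/-!
# Project RB: MERGE
-/

set_option autoImplicit false

open Finset Set

namespace Pool.Agent.Q293.RB

theorem sqrt3_bounds : (17320508 : ℝ) / 10000000 < Real.sqrt 3 ∧
    Real.sqrt 3 < 17320509 / 10000000 := by
  constructor
  · rw [Real.lt_sqrt (by norm_num)]
    norm_num
  · rw [Real.sqrt_lt' (by norm_num)]
    norm_num

theorem cc_bounds : (8452 : ℝ) / 10000 < cc ∧ cc < 8454 / 10000 := by
  obtain ⟨h1, h2⟩ := sqrt3_bounds
  have h0 : 0 < Real.sqrt 3 := by linarith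
  unfold cc
  constructor
  · rw [lt_sub_iff_add_lt, ← lt_sub_iff_add_lt', div_lt_iff₀ h0]
    nlinarith
  · rw [sub_lt_iff_lt_add, ← sub_lt_iff_lt_add', lt_div_iff₀ h0]
    nlinarith

theorem cc_add_kk : cc + kk = 1 := by unfold cc kk; ring

theorem kk_bounds : (1546 : ℝ) / 10000 < kk ∧ kk < 1548 / 10000 := by
  obtain ⟨h1, h2⟩ := cc_bounds
  have := cc_add_kk
  constructor <;> linarith

theorem merge_num : 0 < cc - 2 * cc / 3 * Real.log (2 * cc) + cc * Real.log (3 / 2 - cc) +
    kk * Real.log kk / 3 := by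
  obtain ⟨c1, c2⟩ := cc_bounds
  obtain ⟨k1, k2⟩ := kk_bounds
  have hl2 := Real.log_two_lt_d9
  have hl2' := Real.log_two_gt_d9
  have c0 : 0 < cc := by linarith
  have k0 : 0 < kk := by linarith
  have e1 : Real.log (2 * cc) ≤ 694 / 1000 + (cc - 1) := by
    rw [Real.log_mul (by norm_num) c0.ne']
    have := Real.log_le_sub_one_of_pos c0
    linarith
  have e2 : - (46 / 100 : ℝ) ≤ Real.log (3 / 2 - cc) := by
    have h0 : 0 < 3 / 2 - cc := by linarith
    have h1 : Real.log (3 / 2 - cc) = - Real.log ((3 / 2 - cc)⁻¹) := by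
      rw [Real.log_inv]; ring
    have h2 : (3 / 2 - cc)⁻¹ ≤ 1528 / 1000 := by
      rw [inv_le_comm₀ h0 (by norm_num)]
      norm_num
      linarith
    have h3 : Real.log ((3 / 2 - cc)⁻¹) ≤ Real.log (1528 / 1000) :=
      Real.log_le_log (by positivity) h2
    have h4 : Real.log (1528 / 1000) ≤ 694 / 1000 + (764 / 1000 - 1) := by
      rw [show (1528 / 1000 : ℝ) = 2 * (764 / 1000) by norm_num,
        Real.log_mul (by norm_num) (by norm_num)]
      have := Real.log_le_sub_one_of_pos (show (0 : ℝ) < 764 / 1000 by norm_num)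
      linarith
    rw [h1]
    linarith
  have e3 : - (19 / 10 : ℝ) ≤ Real.log kk := by
    have h1 : Real.log kk = - Real.log (kk⁻¹) := by
      rw [Real.log_inv]; ring
    have h2 : kk⁻¹ ≤ 6470 / 1000 := by
      rw [inv_le_comm₀ k0 (by norm_num)]
      norm_num
      linarith
    have h3 : Real.log (kk⁻¹) ≤ Real.log (6470 / 1000) :=
      Real.log_le_log (by positivity) h2
    have h4 : Real.log (6470 / 1000) ≤ 3 * (6932 / 10000) + (80875 / 100000 - 1) := by
      rw [show (6470 / 1000 : ℝ) = 2 ^ 3 * (80875 / 100000) by norm_num,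
        Real.log_mul (by norm_num) (by norm_num), Real.log_pow]
      have := Real.log_le_sub_one_of_pos (show (0 : ℝ) < 80875 / 100000 by norm_num)
      push_cast
      linarith
    rw [h1]
    linarith
  have g1 : 2 * cc / 3 * Real.log (2 * cc) ≤ 2 * cc / 3 * (694 / 1000 + (cc - 1)) :=
    mul_le_mul_of_nonneg_left e1 (by positivity)
  have g2 : cc * (-(46 / 100)) ≤ cc * Real.log (3 / 2 - cc) :=
    mul_le_mul_of_nonneg_left e2 c0.le
  have g3 : kk * (-(19 / 10)) ≤ kk * Real.log kk :=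
    mul_le_mul_of_nonneg_left e3 k0.le
  nlinarith

theorem hasDerivAt_f {g : ℝ → ℝ} {g' t : ℝ} (hg : HasDerivAt g g' t) (h : g t ≠ 0) :
    HasDerivAt (fun s => f (g s)) (g' * (Real.log (g t) + 1)) t := by
  unfold f
  have h1 := hg.mul (hg.log h)
  refine h1.congr_deriv ?_
  field_simp

theorem hasDerivAt_xi {m t : ℝ} (ht : 0 < t) (h1 : cc * t < 1) (h2 : cc * t < m) :
    HasDerivAt (xi m) (1 / (3 * t) + kk * Real.log kk / 3 +
      cc * (Real.log (m - cc * t) - Real.log t / 3 - 2 / 3 * Real.log (1 - cc * t))) t := by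
  have hid : HasDerivAt (fun s : ℝ => s) 1 t := hasDerivAt_id t
  have d1 : HasDerivAt Real.log t⁻¹ t := Real.hasDerivAt_log ht.ne'
  have d2 : HasDerivAt (fun s => f s) (1 * (Real.log t + 1)) t := hasDerivAt_f hid ht.ne'
  have d3 : HasDerivAt (fun s => s * (kk * Real.log kk)) (1 * (kk * Real.log kk)) t :=
    hid.mul_const _
  have l1 : HasDerivAt (fun s => 1 - cc * s) (-(cc * 1)) t := by
    simpa using (hid.const_mul cc).const_sub 1
  have l2 : HasDerivAt (fun s => m - cc * s) (-(cc * 1)) t := by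
    simpa using (hid.const_mul cc).const_sub m
  have d4 : HasDerivAt (fun s => f (1 - cc * s))
      (-(cc * 1) * (Real.log (1 - cc * t) + 1)) t := hasDerivAt_f l1 (by
        have : 0 < 1 - cc * t := by linarith
        exact this.ne')
  have d5 : HasDerivAt (fun s => f (m - cc * s))
      (-(cc * 1) * (Real.log (m - cc * t) + 1)) t := hasDerivAt_f l2 (by
        have : 0 < m - cc * t := by linarith
        exact this.ne')
  have h := ((((d1.sub (d2.const_mul cc)).add d3).add (d4.const_mul 2)).div_const 3).sub d5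
  have h' : HasDerivAt (xi m) _ t := h
  refine h'.congr_deriv ?_
  field_simp
  ring

/-- The derivative of `xi` is nonnegative for `t ≤ 2m/3`. -/
theorem xi_deriv_nonneg {m t : ℝ} (ht : 0 < t) (hm1 : m ≤ 1) (h : t ≤ 2 * m / 3) :
    0 ≤ 1 / (3 * t) + kk * Real.log kk / 3 +
      cc * (Real.log (m - cc * t) - Real.log t / 3 - 2 / 3 * Real.log (1 - cc * t)) := by
  obtain ⟨c1, c2⟩ := cc_bounds
  have c0 : 0 < cc := by linarith
  have hnum := merge_num
  have hct : 0 < 1 - cc * t := by nlinarith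
  have h32 : 0 < 3 / 2 - cc := by linarith
  -- `log (m - ct) ≥ log t + log (3/2 - c)`
  have e1 : Real.log t + Real.log (3 / 2 - cc) ≤ Real.log (m - cc * t) := by
    rw [← Real.log_mul ht.ne' h32.ne']
    apply Real.log_le_log (by positivity)
    nlinarith
  -- `log ((1-ct)/t) ≤ (1/t - c)/(2c) - 1 + log (2c)`
  have e2 : Real.log (1 - cc * t) - Real.log t ≤
      (1 / t - cc) / (2 * cc) - 1 + Real.log (2 * cc) := by
    have hy : 0 < (1 - cc * t) / t / (2 * cc) := by positivity
    have h1 := Real.log_le_sub_one_of_pos hy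
    rw [Real.log_div (by positivity) (by positivity), Real.log_div hct.ne' ht.ne'] at h1
    have h2 : (1 - cc * t) / t = 1 / t - cc := by field_simp
    rw [h2] at h1
    linarith
  have e3 : cc * (Real.log t + Real.log (3 / 2 - cc)) ≤ cc * Real.log (m - cc * t) :=
    mul_le_mul_of_nonneg_left e1 c0.le
  have e4 : 2 * cc / 3 * (Real.log (1 - cc * t) - Real.log t) ≤
      2 * cc / 3 * ((1 / t - cc) / (2 * cc) - 1 + Real.log (2 * cc)) :=
    mul_le_mul_of_nonneg_left e2 (by positivity)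
  have e5 : 2 * cc / 3 * ((1 / t - cc) / (2 * cc) - 1 + Real.log (2 * cc)) =
      1 / (3 * t) - cc / 3 - 2 * cc / 3 + 2 * cc / 3 * Real.log (2 * cc) := by
    field_simp
  rw [e5] at e4
  linarith

theorem xi_mono {m : ℝ} (hm1 : m ≤ 1) {s t : ℝ} (hs : 0 < s) (hst : s ≤ t)
    (ht : t ≤ 2 * m / 3) : xi m s ≤ xi m t := by
  obtain ⟨c1, c2⟩ := cc_bounds
  have hder : ∀ x ∈ Ioc (0 : ℝ) (2 * m / 3), HasDerivAt (xi m) (1 / (3 * x) +
      kk * Real.log kk / 3 +
      cc * (Real.log (m - cc * x) - Real.log x / 3 - 2 / 3 * Real.log (1 - cc * x))) x := by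
    intro x hx
    exact hasDerivAt_xi hx.1 (by nlinarith [hx.1, hx.2]) (by nlinarith [hx.1, hx.2])
  have hmono : MonotoneOn (xi m) (Ioc (0 : ℝ) (2 * m / 3)) := by
    apply monotoneOn_of_deriv_nonneg (convex_Ioc _ _)
    · exact fun x hx => (hder x hx).continuousAt.continuousWithinAt
    · intro x hx
      rw [interior_Ioc] at hx
      exact (hder x ⟨hx.1, hx.2.le⟩).differentiableAt.differentiableWithinAt
    · intro x hx
      rw [interior_Ioc] at hx
      rw [(hder x ⟨hx.1, hx.2.le⟩).deriv]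
      exact xi_deriv_nonneg hx.1 hm1 hx.2.le
  exact hmono ⟨hs, hst.trans ht⟩ ⟨hs.trans_le hst, ht⟩ hst

theorem merge : S_Merge := by
  intro m a b _ hm1 ha hb hab
  rcases ha.eq_or_lt with rfl | ha'
  · simp [phi]
  rcases hb.eq_or_lt with rfl | hb'
  · simp [phi]
  have h1 := xi_mono hm1 ha' (by linarith : a ≤ a + b) hab
  have h2 := xi_mono hm1 hb' (by linarith : b ≤ a + b) hab
  unfold phi
  have h3 := mul_le_mul_of_nonneg_left h1 ha
  have h4 := mul_le_mul_of_nonneg_left h2 hb
  linarith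

end Pool.Agent.Q293.RB
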