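import Mathlib
import Pool.Agent.Q293.RB.Stm

set_option autoImplicit false

/-!
# Project RB, job REP: `RBM_{3,1}` is the set of mixtures of two positive product laws (helper225)
-/

open Finset

namespace Pool.Agent.Q293.RB

/-- the logistic function -/
noncomputable def lgs (t : ℝ) : ℝ := Real.exp t / (1 + Real.exp t)

/-- the normalising product -/
noncomputable def nrm (t : Fin 3 → ℝ) : ℝ := ∏ i, (1 + Real.exp (t i))

lemma one_add_exp_pos (t : ℝ) : 0 < 1 + Real.exp t := by
  have := Real.exp_pos t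
  linarith

lemma lgs_pos (t : ℝ) : 0 < lgs t := div_pos (Real.exp_pos _) (one_add_exp_pos t)

lemma lgs_lt_one (t : ℝ) : lgs t < 1 := by
  unfold lgs
  rw [div_lt_one (one_add_exp_pos t)]
  linarith [Real.exp_pos t]

lemma nrm_pos (t : Fin 3 → ℝ) : 0 < nrm t := prod_pos fun i _ => one_add_exp_pos (t i)

/-- the inverse of the logistic function -/
lemma lgs_log {a : ℝ} (h0 : 0 < a) (h1 : a < 1) : lgs (Real.log (a / (1 - a))) = a := by
  have h2 : 0 < 1 - a := sub_pos.2 h1
  unfold lgs
  rw [Real.exp_log (div_pos h0 h2)]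
  field_simp
  ring

lemma exp_sum_eq (t : Fin 3 → ℝ) (v : Fin 3 → Bool) :
    Real.exp (∑ i, t i * bit (v i)) = nrm t * prodLaw (fun i => lgs (t i)) v := by
  unfold nrm prodLaw
  rw [Real.exp_sum, ← prod_mul_distrib]
  refine prod_congr rfl fun i _ => ?_
  have h := one_add_exp_pos (t i)
  unfold bit lgs
  cases v i
  · simp only [Bool.false_eq_true, if_false, mul_zero, Real.exp_zero]
    field_simp
    ring
  · simp only [if_true, mul_one]
    field_simp

lemma sum_prodLaw (a : Fin 3 → ℝ) : ∑ v, prodLaw a v = 1 := by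
  unfold prodLaw
  rw [sum8]
  simp only [Fin.prod_univ_three, Matrix.cons_val_zero, Matrix.cons_val_one, Matrix.cons_val]
  simp only [Bool.false_eq_true, if_false, if_true]
  ring

lemma rbmWeight_eq (W : Fin 1 → Fin 3 → ℝ) (b : Fin 3 → ℝ) (c : Fin 1 → ℝ) (v : Fin 3 → Bool) :
    rbmWeight W b c v = nrm b * prodLaw (fun i => lgs (b i)) v +
      Real.exp (c 0) * nrm (fun i => W 0 i + b i) * prodLaw (fun i => lgs (W 0 i + b i)) v := by
  unfold rbmWeight
  rw [Fintype.sum_equiv (Equiv.funUnique (Fin 1) Bool) _ (fun s : Bool =>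
    Real.exp (∑ i, bit s * W 0 i * bit (v i) + ∑ i, b i * bit (v i) + c 0 * bit s))]
  · rw [Fintype.sum_bool, add_comm]
    congr 1
    · rw [← exp_sum_eq]
      simp [bit]
    · rw [mul_assoc, ← exp_sum_eq (fun i => W 0 i + b i), ← Real.exp_add]
      congr 1
      simp only [bit, if_true, one_mul, mul_one]
      rw [← sum_add_distrib, add_comm]
      congr 1
      refine sum_congr rfl fun i _ => ?_
      ring
  · intro h
    simp only [Fin.sum_univ_one, Equiv.funUnique_apply, Fin.default_eq_zero]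

lemma sum_rbmWeight (W : Fin 1 → Fin 3 → ℝ) (b : Fin 3 → ℝ) (c : Fin 1 → ℝ) :
    ∑ v, rbmWeight W b c v = nrm b + Real.exp (c 0) * nrm (fun i => W 0 i + b i) := by
  simp only [rbmWeight_eq]
  rw [sum_add_distrib, ← mul_sum, ← mul_sum, sum_prodLaw, sum_prodLaw, mul_one, mul_one]

theorem rep : S_Rep := by
  intro q
  constructor
  · rintro ⟨W, b, c, hq⟩
    have h1 := nrm_pos b
    have h2 : 0 < Real.exp (c 0) * nrm (fun i => W 0 i + b i) :=
      mul_pos (Real.exp_pos _) (nrm_pos _)
    refine ⟨nrm b / (nrm b + Real.exp (c 0) * nrm (fun i => W 0 i + b i)), fun i => lgs (b i),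
      fun i => lgs (W 0 i + b i), div_pos h1 (add_pos h1 h2), ?_, fun i => ⟨lgs_pos _, lgs_lt_one _⟩,
      fun i => ⟨lgs_pos _, lgs_lt_one _⟩, ?_⟩
    · rw [div_lt_one (add_pos h1 h2)]
      linarith
    · intro x
      rw [hq x, sum_rbmWeight, rbmWeight_eq]
      unfold mix
      have h3 : nrm b + Real.exp (c 0) * nrm (fun i => W 0 i + b i) ≠ 0 := (add_pos h1 h2).ne'
      field_simp
      ring
  · rintro ⟨w, a, b, w0, w1, ha, hb, hq⟩
    obtain ⟨t, ht⟩ : ∃ t : Fin 3 → ℝ, t = fun i => Real.log (a i / (1 - a i)) := ⟨_, rfl⟩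
    obtain ⟨s, hs⟩ : ∃ s : Fin 3 → ℝ, s = fun i => Real.log (b i / (1 - b i)) := ⟨_, rfl⟩
    have hta : (fun i => lgs (t i)) = a := by
      funext i
      rw [ht]
      exact lgs_log (ha i).1 (ha i).2
    have hsb : (fun i => lgs (s i)) = b := by
      funext i
      rw [hs]
      exact lgs_log (hb i).1 (hb i).2
    have h1 := nrm_pos t
    have h2 := nrm_pos s
    have h3 : 0 < 1 - w := sub_pos.2 w1
    have hc : 0 < (1 - w) * nrm t / (w * nrm s) := div_pos (mul_pos h3 h1) (mul_pos w0 h2)
    refine ⟨fun _ i => s i - t i, t, fun _ => Real.log ((1 - w) * nrm t / (w * nrm s)), ?_⟩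
    intro v
    rw [sum_rbmWeight, rbmWeight_eq, hq v]
    have e1 : (fun i => s i - t i + t i) = s := by
      funext i
      ring
    have e2 : (fun i => lgs (s i - t i + t i)) = b := by
      rw [← hsb]
      funext i
      congr 1
      ring
    rw [e1, e2, hta, Real.exp_log hc]
    unfold mix
    have h4 : (1 - w) * nrm t / (w * nrm s) * nrm s = (1 - w) * nrm t / w := by
      field_simp
    rw [h4]
    have h5 : nrm t + (1 - w) * nrm t / w = nrm t / w := by
      field_simp
      ring
    rw [h5]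
    field_simp

end Pool.Agent.Q293.RB
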