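import Pool.Agent.Q293.RB.Stm

/-!
# Project RB: one side of a coordinate, and the inequality in the mass of the side
-/

set_option autoImplicit false

open Finset

namespace Pool.Agent.Q293.RB

theorem phi_zero (m : ℝ) : phi m 0 = 0 := by simp [phi]

theorem E1_zero : E1 0 = 0 := by simp [E1, phi]

theorem E2_zero : E2 0 = 0 := by simp [E2]

theorem side2 (hT : S_Two) {m a b : ℝ} (hm : 0 < m) (hm1 : m ≤ 1) (ha : 0 ≤ a) (hb : 0 ≤ b)
    (h : a + b = m) : phi m a + phi m b ≤ max (E1 m) (E2 m) := by
  rcases le_total a b with hab | hab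
  · have := hT m a hm hm1 ha (by linarith)
    have hb' : m - a = b := by linarith
    rwa [hb'] at this
  · have := hT m b hm hm1 hb (by linarith)
    have hb' : m - b = a := by linarith
    rw [hb'] at this
    linarith

theorem side3 (hM : S_Merge) (hT : S_Two) {m a b c : ℝ} (hm : 0 < m) (hm1 : m ≤ 1) (ha : 0 ≤ a)
    (hb : 0 ≤ b) (hc : 0 ≤ c) (h : a + b + c = m) :
    phi m a + phi m b + phi m c ≤ max (E1 m) (E2 m) := by
  by_cases h1 : a + b ≤ 2 * m / 3
  · have e1 := hM m a b hm hm1 ha hb h1
    have e2 := side2 hT hm hm1 (add_nonneg ha hb) hc (by linarith)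
    linarith
  by_cases h2 : a + c ≤ 2 * m / 3
  · have e1 := hM m a c hm hm1 ha hc h2
    have e2 := side2 hT hm hm1 (add_nonneg ha hc) hb (by linarith)
    linarith
  · have e1 := hM m b c hm hm1 hb hc (by push Not at h1 h2; linarith)
    have e2 := side2 hT hm hm1 (add_nonneg hb hc) ha (by linarith)
    linarith

theorem side4 (hM : S_Merge) (hT : S_Two) {m a b c d : ℝ} (hm : 0 ≤ m) (hm1 : m ≤ 1) (ha : 0 ≤ a)
    (hb : 0 ≤ b) (hc : 0 ≤ c) (hd : 0 ≤ d) (h : a + b + c + d = m) :
    phi m a + phi m b + phi m c + phi m d ≤ max (E1 m) (E2 m) := by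
  rcases hm.eq_or_lt with rfl | hm0
  · have h1 : a = 0 := by linarith
    have h2 : b = 0 := by linarith
    have h3 : c = 0 := by linarith
    have h4 : d = 0 := by linarith
    subst h1 h2 h3 h4
    simp [phi_zero, E1_zero]
  rcases le_total (a + b) (c + d) with h1 | h1
  · have e1 := hM m a b hm0 hm1 ha hb (by linarith)
    have e2 := side3 hM hT hm0 hm1 (add_nonneg ha hb) hc hd (by linarith)
    linarith
  · have e1 := hM m c d hm0 hm1 hc hd (by linarith)
    have e2 := side3 hM hT hm0 hm1 ha hb (add_nonneg hc hd) (by linarith)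
    linarith

theorem V_pos : 0 < V := by
  unfold V
  have h3 : 0 < Real.sqrt 3 := by positivity
  have : 0 < Real.log (1 + 2 / Real.sqrt 3) := Real.log_pos (by
    have : 0 < 2 / Real.sqrt 3 := by positivity
    linarith)
  positivity

/-- The sum of the two sides, for `m ≤ 1/2`. -/
theorem fin_half (hG : S_GTT) (hD : S_Del) {m : ℝ} (hm : 0 < m) (hm1 : m ≤ 1 / 2) :
    max (E1 m) (E2 m) + max (E1 (1 - m)) (E2 (1 - m)) -
      (m * f (1 - m) + (1 - m) * f m) ≤ V / 3 := by
  obtain ⟨D1, D2, D3⟩ := hD
  have g := hG m hm (by linarith)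
  -- the left side
  have hl : max (E1 m) (E2 m) ≤ E2 m + (if m ≤ 33 / 100 then
      2311 / 10000 * m * (1 - m / (33 / 100)) else 0) := by
    split_ifs with h
    · have h1 := D1 m hm.le h
      have h2 : 0 ≤ 2311 / 10000 * m * (1 - m / (33 / 100)) := by
        have : 0 ≤ 1 - m / (33 / 100) := by
          rw [sub_nonneg, div_le_one (by norm_num)]
          exact h
        positivity
      exact max_le (by linarith) (by linarith)
    · have h1 := D2 m (by push Not at h; linarith) (by linarith)
      rw [add_zero]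
      exact max_le h1 le_rfl
  have hr : max (E1 (1 - m)) (E2 (1 - m)) ≤ E2 (1 - m) + (if m ≤ 15 / 100 then
      76 / 1000 * (15 / 100 - m) / (15 / 100) else 0) := by
    split_ifs with h
    · have h1 := D3 (1 - m) (by linarith) (by linarith)
      have h2 : 0 ≤ 76 / 1000 * (15 / 100 - m) / (15 / 100) := by
        have : 0 ≤ 15 / 100 - m := by linarith
        positivity
      have h3 : 76 / 1000 * (1 - m - 85 / 100) / (15 / 100) =
          76 / 1000 * (15 / 100 - m) / (15 / 100) := by ring
      rw [h3] at h1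
      exact max_le (by linarith) (by linarith)
    · have h1 := D2 (1 - m) (by linarith) (by push Not at h; linarith)
      rw [add_zero]
      exact max_le h1 le_rfl
  have key : (if m ≤ 33 / 100 then 2311 / 10000 * m * (1 - m / (33 / 100)) else 0) +
      (if m ≤ 15 / 100 then 76 / 1000 * (15 / 100 - m) / (15 / 100) else 0) ≤
      485 / 1000 * (m - 1 / 2) ^ 2 := by
    by_cases h1 : m ≤ 33 / 100
    · by_cases h2 : m ≤ 15 / 100
      · rw [if_pos h1, if_pos h2]
        nlinarith [sq_nonneg (m - 1 / 10)]
      · rw [if_pos h1, if_neg h2]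
        push Not at h2
        nlinarith [mul_nonneg (sub_nonneg.2 h1) (sub_nonneg.2 h2.le)]
    · rw [if_neg h1, if_neg (by push Not at h1; linarith), add_zero]
      have := sq_nonneg (m - 1 / 2)
      linarith
  linarith

theorem fin (hG : S_GTT) (hD : S_Del) {m : ℝ} (hm : 0 ≤ m) (hm1 : m ≤ 1) :
    max (E1 m) (E2 m) + max (E1 (1 - m)) (E2 (1 - m)) -
      (m * f (1 - m) + (1 - m) * f m) ≤ V / 3 := by
  have hE1 : E1 1 - E2 1 ≤ 76 / 1000 := by
    have := hD.2.2 1 (by norm_num) le_rfl
    norm_num at this ⊢
    linarith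
  have h11 : max (E1 1) (E2 1) ≤ V / 3 := by
    have hf1 : f 1 = 0 := by simp [f]
    -- `E1 1 = 0`
    have e1 : E1 1 = 0 := by
      have hk : 1 - cc = kk := by unfold cc kk; ring
      unfold E1 phi xi
      rw [mul_one, hk]
      simp only [f, Real.log_one]
      ring
    -- `E2 1 ≤ 0`
    have e2 : E2 1 ≤ 0 := by
      have h3 : (0 : ℝ) < Real.sqrt 3 := by positivity
      have h33 : Real.sqrt 3 * Real.sqrt 3 = 3 := Real.mul_self_sqrt (by norm_num)
      have h32 : Real.sqrt 3 < 2 := by nlinarith
      set u : ℝ := 1 / Real.sqrt 3 with hu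
      have hu0 : 0 < u := by positivity
      have hcu : 1 - cc * (1 / 2) = u := by rw [hu]; unfold cc; ring
      have hk0 : 0 < kk := by
        unfold kk
        rw [sub_pos, lt_div_iff₀ h3]
        linarith
      have hk1 : kk < 1 := by
        unfold kk
        rw [sub_lt_iff_lt_add, div_lt_iff₀ h3]
        nlinarith
      have hlk : kk * Real.log kk ≤ 0 :=
        mul_nonpos_of_nonneg_of_nonpos hk0.le (Real.log_nonpos hk0.le hk1.le)
      have hl2u : 0 ≤ Real.log 2 + Real.log u := by
        rw [← Real.log_mul (by norm_num) hu0.ne']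
        apply Real.log_nonneg
        rw [hu, mul_one_div, le_div_iff₀ h3]
        linarith
      have hcc : cc / 2 = 1 - u := by rw [← hcu]; ring
      have hlh : Real.log (1 / 2) = - Real.log 2 := by
        rw [one_div, Real.log_inv]
      have : E2 1 = (-(u * (Real.log 2 + Real.log u)) + kk * Real.log kk / 2) / 3 := by
        unfold E2 xi
        rw [one_mul, hcu]
        simp only [f, hlh]
        have : cc = 2 * (1 - u) := by linarith
        rw [this]
        ring
      rw [this]
      have := mul_nonneg hu0.le hl2u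
      linarith
    rw [e1]
    have := V_pos
    exact max_le (by linarith) (by linarith)
  rcases hm.eq_or_lt with rfl | hm0
  · have hf1 : f 1 = 0 := by simp [f]
    have hf0 : f 0 = 0 := by simp [f]
    rw [E1_zero, E2_zero, sub_zero, hf1, hf0]
    simpa using h11
  rcases hm1.eq_or_lt with rfl | hm1'
  · have hf1 : f 1 = 0 := by simp [f]
    have hf0 : f 0 = 0 := by simp [f]
    rw [sub_self, E1_zero, E2_zero, hf1, hf0]
    simpa using h11
  rcases le_total m (1 / 2) with h | h
  · exact fin_half hG hD hm0 h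
  · have := fin_half hG hD (m := 1 - m) (by linarith) (by linarith)
    rw [sub_sub_cancel] at this
    linarith

end Pool.Agent.Q293.RB
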