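import Pool.Agent.Q293.RB.Stm

/-!
# Project RB: splitting off a part of one atom
-/

set_option autoImplicit false

open Finset

namespace Pool.Agent.Q293.RB

theorem spl_sqrt : (17 / 10 : ℝ) < Real.sqrt 3 ∧ Real.sqrt 3 < 18 / 10 := by
  constructor
  · rw [Real.lt_sqrt (by norm_num)]; norm_num
  · rw [Real.sqrt_lt' (by norm_num)]; norm_num

theorem spl_kk_eq : kk = 1 - cc := by unfold kk cc; ring

theorem spl_kk_pos : 0 < kk := by
  have h := spl_sqrt
  have h0 : 0 < Real.sqrt 3 := by linarith
  unfold kk
  have : 1 < 2 / Real.sqrt 3 := by rw [lt_div_iff₀ h0]; linarith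
  linarith

theorem spl_cc_pos : 0 < cc := by
  have h := spl_sqrt
  have h0 : 0 < Real.sqrt 3 := by linarith
  unfold cc
  have : 2 / Real.sqrt 3 < 2 := by rw [div_lt_iff₀ h0]; linarith
  linarith

/-- Two-term log-sum inequality, with a common second term. -/
theorem spl_logsum (A B C : ℝ) (hA : 0 < A) (hB : 0 < B) (hC : 0 < C) :
    (A + B) * Real.log ((A + B) / (C + B)) ≤ A * Real.log (A / C) := by
  -- `log t ≤ t - 1`
  have h1 : Real.log (((A + B) / (C + B)) / (A / C)) ≤ ((A + B) / (C + B)) / (A / C) - 1 :=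
    Real.log_le_sub_one_of_pos (by positivity)
  have h2 : Real.log ((A + B) / (C + B)) ≤ (A + B) / (C + B) - 1 :=
    Real.log_le_sub_one_of_pos (by positivity)
  rw [Real.log_div (by positivity) (by positivity)] at h1
  set L := Real.log ((A + B) / (C + B))
  set M := Real.log (A / C)
  have h3 : A * (L - M) ≤ A * (((A + B) / (C + B)) / (A / C) - 1) :=
    mul_le_mul_of_nonneg_left h1 hA.le
  have h4 : B * L ≤ B * ((A + B) / (C + B) - 1) := mul_le_mul_of_nonneg_left h2 hB.le
  have h5 : A * (((A + B) / (C + B)) / (A / C) - 1) + B * ((A + B) / (C + B) - 1) = 0 := by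
    field_simp
    ring
  nlinarith

theorem spl_sum (μ : (Fin 3 → Bool) → ℝ) (i : Fin 3) (g : Bool → ℝ) :
    ∑ x, μ x * g (x i) = marg μ i true * g true + marg μ i false * g false := by
  unfold marg
  rw [Finset.sum_mul, Finset.sum_mul, ← Finset.sum_add_distrib]
  refine Finset.sum_congr rfl fun x _ => ?_
  cases h : x i <;> simp

theorem spl_prod_b (x₀ x : Fin 3 → Bool) :
    prodLaw (fun i => if x₀ i then 1 else 0) x = if x = x₀ then 1 else 0 := by
  unfold prodLaw
  by_cases h : x = x₀
  · subst h
    rw [if_pos rfl]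
    refine Finset.prod_eq_one fun i _ => ?_
    by_cases hi : x i = true
    · simp [hi]
    · simp [hi]
  · rw [if_neg h]
    obtain ⟨i, hi⟩ := Function.ne_iff.mp h
    refine Finset.prod_eq_zero (Finset.mem_univ i) ?_
    cases h1 : x i <;> cases h2 : x₀ i <;> simp_all

theorem spl : S_Spl := by
  intro p x₀ hp hx₀
  obtain ⟨hp0, hp1⟩ := hp
  have hk := spl_kk_pos
  have hc := spl_cc_pos
  have hkc := spl_kk_eq
  have hle : p x₀ ≤ 1 := by
    rw [← hp1]; exact Finset.single_le_sum (fun i _ => hp0 i) (Finset.mem_univ x₀)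
  set Z : ℝ := 1 - cc * p x₀ with hZ
  have hZpos : 0 < Z := by nlinarith
  set μ : (Fin 3 → Bool) → ℝ := fun x => if x = x₀ then kk * p x₀ else p x with hμ
  have hμx₀ : μ x₀ = kk * p x₀ := by simp [hμ]
  have hμne : ∀ x, x ≠ x₀ → μ x = p x := fun x hx => by simp [hμ, hx]
  have hμeq : ∀ x, μ x = p x - (if x = x₀ then cc * p x₀ else 0) := by
    intro x
    by_cases h : x = x₀
    · subst h; rw [hμx₀, if_pos rfl, hkc]; ring
    · rw [hμne x h, if_neg h]; ring
  have hμ0 : ∀ x, 0 ≤ μ x := by
    intro x
    by_cases h : x = x₀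
    · subst h; rw [hμx₀]; positivity
    · rw [hμne x h]; exact hp0 x
  have hμpos : ∀ x, 0 < p x → 0 < μ x := by
    intro x hx
    by_cases h : x = x₀
    · subst h; rw [hμx₀]; positivity
    · rw [hμne x h]; exact hx
  have hμsum : ∑ x, μ x = Z := by
    simp only [hμeq]
    rw [Finset.sum_sub_distrib, hp1, Finset.sum_ite_eq' Finset.univ x₀]
    simp [hZ]
  have hmsum : ∀ i, marg μ i true + marg μ i false = Z := by
    intro i
    have := spl_sum μ i (fun _ => 1)
    simp only [mul_one] at this
    rw [← this, hμsum]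
  have hm0 : ∀ i s, 0 ≤ marg μ i s := by
    intro i s
    unfold marg
    exact Finset.sum_nonneg fun x _ => by split_ifs <;> [exact hμ0 x; exact le_rfl]
  have hmle : ∀ i x, μ x ≤ marg μ i (x i) := by
    intro i x
    unfold marg
    have := Finset.single_le_sum (f := fun y => if y i = x i then μ y else 0)
      (fun y _ => by split_ifs <;> [exact hμ0 y; exact le_rfl]) (Finset.mem_univ x)
    simpa using this
  set a : Fin 3 → ℝ := fun i => marg μ i true / Z with ha
  have ha0 : ∀ i, 0 ≤ a i := fun i => div_nonneg (hm0 i true) hZpos.le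
  have h1a : ∀ i, 1 - a i = marg μ i false / Z := by
    intro i
    change 1 - marg μ i true / Z = marg μ i false / Z
    rw [eq_div_iff hZpos.ne', sub_mul, div_mul_cancel₀ _ hZpos.ne', ← hmsum i]; ring
  have ha1 : ∀ i, a i ≤ 1 := by
    intro i
    have := h1a i
    have h2 : 0 ≤ marg μ i false / Z := div_nonneg (hm0 i false) hZpos.le
    linarith
  have hprod : ∀ x, prodLaw a x = ∏ i, (marg μ i (x i) / Z) := by
    intro x
    unfold prodLaw
    refine Finset.prod_congr rfl fun i _ => ?_
    cases h : x i
    · simp [h1a i]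
    · simp [ha]
  have hνpos : ∀ x, 0 < μ x → 0 < Z * prodLaw a x := by
    intro x hx
    rw [hprod]
    refine mul_pos hZpos (Finset.prod_pos fun i _ => ?_)
    exact div_pos (lt_of_lt_of_le hx (hmle i x)) hZpos
  have hν0 : ∀ x, 0 ≤ Z * prodLaw a x := by
    intro x
    rw [hprod]
    refine mul_nonneg hZpos.le (Finset.prod_nonneg fun i _ => ?_)
    exact div_nonneg (hm0 _ _) hZpos.le
  have hmix : ∀ x, mix Z a (fun i => if x₀ i then 1 else 0) x =
      Z * prodLaw a x + (if x = x₀ then cc * p x₀ else 0) := by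
    intro x
    unfold mix
    rw [spl_prod_b]
    by_cases h : x = x₀
    · rw [if_pos h, if_pos h, hZ]; ring
    · rw [if_neg h, if_neg h]; ring
  refine ⟨Z, a, fun i => if x₀ i then 1 else 0, hZpos.le, ?_, fun i => ⟨ha0 i, ha1 i⟩, ?_, ?_, ?_⟩
  · rw [hZ]; nlinarith
  · intro i
    dsimp only
    split_ifs <;> norm_num
  · intro x hx
    rw [hmix]
    have h1 := hνpos x (hμpos x hx)
    have h2 : 0 ≤ (if x = x₀ then cc * p x₀ else 0) := by
      split_ifs <;> [positivity; exact le_rfl]
    linarith
  · -- the divergence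
    have hterm : ∀ x, p x * Real.log (p x / mix Z a (fun i => if x₀ i then 1 else 0) x) ≤
        μ x * Real.log (μ x / (Z * prodLaw a x)) := by
      intro x
      rw [hmix]
      by_cases h : x = x₀
      · subst h
        rw [if_pos rfl]
        have hpx : p x = μ x + cc * p x := by rw [hμeq x, if_pos rfl]; ring
        have := spl_logsum (μ x) (cc * p x) (Z * prodLaw a x) (hμpos x hx₀)
          (by positivity) (hνpos x (hμpos x hx₀))
        rw [← hpx] at this
        exact this
      · rw [if_neg h, hμne x h, add_zero]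
    have hlog : ∀ x, μ x * Real.log (μ x / (Z * prodLaw a x)) =
        f (μ x) + 2 * (μ x * Real.log Z) - ∑ i, μ x * Real.log (marg μ i (x i)) := by
      intro x
      rcases (hμ0 x).eq_or_lt with h | h
      · rw [← h]; simp [f]
      · have hm : ∀ i, 0 < marg μ i (x i) := fun i => lt_of_lt_of_le h (hmle i x)
        rw [Real.log_div h.ne' (hνpos x h).ne', hprod,
          Real.log_mul hZpos.ne' (Finset.prod_pos fun i _ => div_pos (hm i) hZpos).ne',
          Real.log_prod (fun i _ => (div_pos (hm i) hZpos).ne'), ← Finset.mul_sum]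
        have : ∑ i : Fin 3, Real.log (marg μ i (x i) / Z) =
            ∑ i : Fin 3, Real.log (marg μ i (x i)) - 3 * Real.log Z := by
          rw [Finset.sum_congr rfl fun i _ => Real.log_div (hm i).ne' hZpos.ne',
            Finset.sum_sub_distrib]
          simp
        rw [this]
        unfold f
        ring
    have hmp : ∀ i, marg μ i (x₀ i) = marg p i (x₀ i) - cc * p x₀ := by
      intro i
      unfold marg
      have : ∀ x, (if x i = x₀ i then μ x else 0) = (if x i = x₀ i then p x else 0) -
          (if x = x₀ then cc * p x₀ else 0) := by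
        intro x
        rw [hμeq x]
        by_cases h : x = x₀
        · subst h; simp
        · simp [h]
      rw [Finset.sum_congr rfl fun x _ => this x, Finset.sum_sub_distrib,
        Finset.sum_ite_eq' Finset.univ x₀]
      simp
    have hmn : ∀ i, marg μ i (!x₀ i) = marg p i (!x₀ i) := by
      intro i
      unfold marg
      refine Finset.sum_congr rfl fun x _ => ?_
      by_cases h : x = x₀
      · subst h; simp
      · rw [hμne x h]
    have hfin : ∑ x, μ x * Real.log (μ x / (Z * prodLaw a x)) = Jx p x₀ := by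
      rw [Finset.sum_congr rfl fun x _ => hlog x, Finset.sum_sub_distrib,
        Finset.sum_add_distrib, ← Finset.mul_sum, ← Finset.sum_mul, hμsum, Finset.sum_comm]
      unfold Jx
      have e1 : ∑ x, f (μ x) = ∑ y, if y = x₀ then f (kk * p x₀) else f (p y) := by
        refine Finset.sum_congr rfl fun x _ => ?_
        by_cases h : x = x₀
        · simp [h, hμ]
        · rw [if_neg h, hμne x h]
      have e2 : ∑ i : Fin 3, ∑ x, μ x * Real.log (marg μ i (x i)) =
          ∑ i : Fin 3, (f (marg p i (x₀ i) - cc * p x₀) + f (marg p i (!x₀ i))) := by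
        refine Finset.sum_congr rfl fun i _ => ?_
        rw [spl_sum μ i (fun s => Real.log (marg μ i s)), ← hmp, ← hmn]
        unfold f
        cases x₀ i
        · simp only [Bool.not_false]; ring
        · simp only [Bool.not_true]
      rw [e1, e2]
      rfl
    rw [← hfin]
    unfold KL
    exact Finset.sum_le_sum fun x _ => hterm x

end Pool.Agent.Q293.RB
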