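import Pool.Agent.Q293.RB.Merge

/-!
# Project RB: TWO
-/

set_option autoImplicit false

open Finset Set

namespace Pool.Agent.Q293.RB

/-- First derivative of `phi m`. -/
noncomputable def p1 (m t : ℝ) : ℝ :=
  (Real.log t + 1 - cc * (2 * t * Real.log t + t) + 2 * (kk * Real.log kk) * t +
    2 * ((1 - 2 * cc * t) * Real.log (1 - cc * t) - cc * t)) / 3 -
    ((m - 2 * cc * t) * Real.log (m - cc * t) - cc * t)

/-- Second derivative of `phi m`. -/
noncomputable def p2 (m t : ℝ) : ℝ :=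
  (1 / t - 2 * cc * Real.log t + 2 * (kk * Real.log kk) - 4 * cc * Real.log (1 - cc * t) +
    2 * cc / (1 - cc * t)) / 3 + 2 * cc * Real.log (m - cc * t) - cc * m / (m - cc * t)

/-- Third derivative of `phi m`. -/
noncomputable def p3 (m t : ℝ) : ℝ :=
  (-1 / t ^ 2 - 2 * cc / t + 2 * cc ^ 2 * (1 / (1 - cc * t) ^ 2 + 2 / (1 - cc * t))) / 3 -
    cc ^ 2 * (m / (m - cc * t) ^ 2 + 2 / (m - cc * t))

theorem lin1 (t : ℝ) : HasDerivAt (fun s => 1 - cc * s) (-(cc * 1)) t := by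
  simpa using ((hasDerivAt_id t).const_mul cc).const_sub 1

theorem linm (m t : ℝ) : HasDerivAt (fun s => m - cc * s) (-(cc * 1)) t := by
  simpa using ((hasDerivAt_id t).const_mul cc).const_sub m

theorem hasDerivAt_phi {m t : ℝ} (ht : 0 < t) (h1 : 0 < 1 - cc * t) (h2 : 0 < m - cc * t) :
    HasDerivAt (phi m) (p1 m t) t := by
  have hx := hasDerivAt_xi (m := m) ht (by linarith) (by linarith)
  have hid : HasDerivAt (fun s : ℝ => s) 1 t := hasDerivAt_id t
  have h := hid.mul hx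
  have h' : HasDerivAt (phi m) _ t := h
  refine h'.congr_deriv ?_
  unfold p1 xi f
  field_simp
  ring

theorem hasDerivAt_p1 {m t : ℝ} (ht : 0 < t) (h1 : 0 < 1 - cc * t) (h2 : 0 < m - cc * t) :
    HasDerivAt (p1 m) (p2 m t) t := by
  have hid : HasDerivAt (fun s : ℝ => s) 1 t := hasDerivAt_id t
  have n0 : t ≠ 0 := ht.ne'
  have n1 : 1 - cc * t ≠ 0 := h1.ne'
  have n2 : m - cc * t ≠ 0 := h2.ne'
  have dl : HasDerivAt Real.log t⁻¹ t := Real.hasDerivAt_log ht.ne'
  have d1 := (lin1 t).log h1.ne'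
  have d2 := (linm m t).log h2.ne'
  have a1 : HasDerivAt (fun s => 1 - 2 * cc * s) (-(2 * cc * 1)) t := by
    simpa using (hid.const_mul (2 * cc)).const_sub 1
  have a2 : HasDerivAt (fun s => m - 2 * cc * s) (-(2 * cc * 1)) t := by
    simpa using (hid.const_mul (2 * cc)).const_sub m
  have h := ((((dl.add_const 1).sub (((hid.const_mul 2).mul dl).add hid |>.const_mul cc)).add
    (hid.const_mul (2 * (kk * Real.log kk)))).add
    (((a1.mul d1).sub (hid.const_mul cc)).const_mul 2)).div_const 3 |>.sub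
    ((a2.mul d2).sub (hid.const_mul cc))
  have h' : HasDerivAt (p1 m) _ t := h
  refine h'.congr_deriv ?_
  unfold p2
  have hT : t * t⁻¹ = 1 := mul_inv_cancel₀ n0
  have hi : (1 - cc * t) * (1 - cc * t)⁻¹ = 1 := mul_inv_cancel₀ n1
  have hj : (m - cc * t) * (m - cc * t)⁻¹ = 1 := mul_inv_cancel₀ n2
  linear_combination (-2 * cc / 3) * hT + (-4 * cc / 3) * hi + 2 * cc * hj

theorem hasDerivAt_p2 {m t : ℝ} (ht : 0 < t) (h1 : 0 < 1 - cc * t) (h2 : 0 < m - cc * t) :
    HasDerivAt (p2 m) (p3 m t) t := by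
  have hid : HasDerivAt (fun s : ℝ => s) 1 t := hasDerivAt_id t
  have n0 : t ≠ 0 := ht.ne'
  have n1 : 1 - cc * t ≠ 0 := h1.ne'
  have n2 : m - cc * t ≠ 0 := h2.ne'
  have dl : HasDerivAt Real.log t⁻¹ t := Real.hasDerivAt_log ht.ne'
  have d1 := (lin1 t).log h1.ne'
  have d2 := (linm m t).log h2.ne'
  have i0 := (hasDerivAt_const t (1 : ℝ)).div hid ht.ne'
  have i1 := (hasDerivAt_const t (2 * cc)).div (lin1 t) h1.ne'
  have i2 := (hasDerivAt_const t (cc * m)).div (linm m t) h2.ne'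
  have h := ((((((i0.sub (dl.const_mul (2 * cc))).add_const (2 * (kk * Real.log kk))).sub
    (d1.const_mul (4 * cc))).add i1).div_const 3).add (d2.const_mul (2 * cc))).sub i2
  have h' : HasDerivAt (p2 m) _ t := h
  refine h'.congr_deriv ?_
  unfold p3
  ring

/-- The polynomial inequality behind the sign of the third derivative. -/
theorem poly_y {m y : ℝ} (hm : 0 < m) (hm1 : m ≤ 1) (hy : 0 ≤ y) (hy1 : y ≤ 1 / 4) :
    0 < 1 + 3 * m * (5634 / 10000 * y + 8049 / 10000 * (2 + 2113 / 1000 * m) * m ^ 2 * y ^ 2 -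
      6978 / 10000 * (405 / 1000 + 139 / 100 * y) ^ 2 -
      12085 / 10000 * y * (405 / 1000 + 139 / 100 * y)) := by
  have q : 0 < 1 - 1446 / 1000 * m + 3 / 10 * m ^ 3 + 318 / 1000 * m ^ 4 := by
    nlinarith [sq_nonneg (m - 88 / 100), sq_nonneg (m ^ 2 - 77 / 100),
      sq_nonneg (m * (m - 88 / 100)), sq_nonneg (m ^ 2), mul_pos hm hm]
  -- the bracket as a quadratic polynomial in `y`
  set A : ℝ := 8049 / 10000 * (2 + 2113 / 1000 * m) * m ^ 2 with hA
  have hA0 : 0 ≤ A := by positivity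
  have hA1 : A ≤ 8049 / 10000 * (2 + 2113 / 1000) := by
    have h1 : m ^ 2 ≤ 1 := by nlinarith
    have h2 : (2 + 2113 / 1000 * m) * m ^ 2 ≤ (2 + 2113 / 1000) * 1 := by
      apply mul_le_mul (by linarith) h1 (by positivity) (by norm_num)
    rw [hA]
    nlinarith
  have e : 5634 / 10000 * y + A * y ^ 2 -
      6978 / 10000 * (405 / 1000 + 139 / 100 * y) ^ 2 -
      12085 / 10000 * y * (405 / 1000 + 139 / 100 * y) ≥
      -(6978 / 10000 * (405 / 1000) ^ 2) + (5634 / 10000 - 6978 / 10000 * 2 * (405 / 1000) *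
        (139 / 100) - 12085 / 10000 * (405 / 1000)) / 4 +
        (A - 6978 / 10000 * (139 / 100) ^ 2 - 12085 / 10000 * (139 / 100)) / 16 := by
    rcases le_total (A - 6978 / 10000 * (139 / 100) ^ 2 - 12085 / 10000 * (139 / 100)) 0
      with h | h
    · nlinarith [mul_nonneg hy (sub_nonneg.2 hy1),
        mul_nonneg (neg_nonneg.2 h) (mul_nonneg hy (sub_nonneg.2 hy1)),
        mul_nonneg (neg_nonneg.2 h) (sub_nonneg.2 hy1)]
    · nlinarith [mul_nonneg h (sq_nonneg (y - 1 / 4)), mul_nonneg h (sub_nonneg.2 hy1),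
        mul_nonneg (sub_nonneg.2 hA1) (sub_nonneg.2 hy1)]
  have e2 := mul_le_mul_of_nonneg_left e (by positivity : 0 ≤ 3 * m)
  have e3 : 0 < 1 + 3 * m * (-(6978 / 10000 * (405 / 1000) ^ 2) + (5634 / 10000 -
      6978 / 10000 * 2 * (405 / 1000) *
        (139 / 100) - 12085 / 10000 * (405 / 1000)) / 4 +
        (A - 6978 / 10000 * (139 / 100) ^ 2 - 12085 / 10000 * (139 / 100)) / 16) := by
    rw [hA]
    nlinarith
  linarith

/-- The bound for the terms with `1 - c t`. -/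
theorem w_bound {m P : ℝ} (hm : 0 < m) (hm1 : m ≤ 1) (hP : 0 < P) (hP1 : P ≤ m ^ 2 / 4) :
    0 < 1 - cc * m + cc ^ 2 * P ∧
    4 * (2 + 5 * (cc * m / 2)) ≤ 2 * (2 - cc * m) / (1 - cc * m + cc ^ 2 * P) ^ 2 +
      4 / (1 - cc * m + cc ^ 2 * P) := by
  obtain ⟨c1, c2⟩ := cc_bounds
  have hW : 0 < 1 - cc * m + cc ^ 2 * P := by nlinarith [mul_pos (pow_pos (by linarith : 0 < cc) 2) hP]
  refine ⟨hW, ?_⟩
  set W := 1 - cc * m + cc ^ 2 * P with hWd
  set v : ℝ := cc * m / 2 with hv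
  have hv0 : 0 < v := by rw [hv]; positivity
  have hv1 : v < 1 / 2 := by rw [hv]; nlinarith
  have hWr : W ≤ (1 - v) ^ 2 := by
    rw [hWd, hv]
    have : cc ^ 2 * P ≤ cc ^ 2 * (m ^ 2 / 4) := mul_le_mul_of_nonneg_left hP1 (by positivity)
    nlinarith
  have h1 : 1 + 2 * v ≤ 1 / W := by
    rw [le_div_iff₀ hW]
    have : (1 + 2 * v) * W ≤ (1 + 2 * v) * (1 - v) ^ 2 :=
      mul_le_mul_of_nonneg_left hWr (by linarith)
    nlinarith [mul_pos hv0 hv0, mul_pos (mul_pos hv0 hv0) hv0]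
  have h2 : 1 + 3 * v ≤ (1 - v) / W ^ 2 := by
    rw [le_div_iff₀ (by positivity)]
    have hW2 : W ^ 2 ≤ ((1 - v) ^ 2) ^ 2 := pow_le_pow_left₀ hW.le hWr 2
    have h3 : (1 + 3 * v) * W ^ 2 ≤ (1 + 3 * v) * ((1 - v) ^ 2) ^ 2 :=
      mul_le_mul_of_nonneg_left hW2 (by linarith)
    have h4 : (1 + 3 * v) * (1 - v) ^ 3 ≤ 1 := by
      have : (1 + 3 * v) * (1 - v) ^ 3 = 1 - v ^ 2 * (6 - 8 * v + 3 * v ^ 2) := by ring
      rw [this]
      have : 0 ≤ v ^ 2 * (6 - 8 * v + 3 * v ^ 2) := by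
        apply mul_nonneg (sq_nonneg v)
        nlinarith
      linarith
    have h5 : (1 + 3 * v) * ((1 - v) ^ 2) ^ 2 = (1 + 3 * v) * (1 - v) ^ 3 * (1 - v) := by ring
    rw [h5] at h3
    have h6 : (1 + 3 * v) * (1 - v) ^ 3 * (1 - v) ≤ 1 * (1 - v) :=
      mul_le_mul_of_nonneg_right h4 (by linarith)
    linarith
  have e1 : 2 * (2 - cc * m) / W ^ 2 = 4 * ((1 - v) / W ^ 2) := by rw [hv]; ring
  have e2 : 4 / W = 4 * (1 / W) := by ring
  rw [e1, e2]
  linarith

theorem key {m P : ℝ} (hm : 0 < m) (hm1 : m ≤ 1) (hP : 0 < P) (hP1 : P ≤ m ^ 2 / 4) :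
    0 < 1 / 3 * (m / P ^ 2 + 2 * cc / P + (2 * (2 - cc * m) / (1 - cc * m + cc ^ 2 * P) ^ 2 +
      4 / (1 - cc * m + cc ^ 2 * P)) * cc ^ 3) -
      cc ^ 3 * (m ^ 2 * (2 - cc) / (kk * m ^ 2 + cc ^ 2 * P) ^ 2 +
        2 / (kk * m ^ 2 + cc ^ 2 * P)) := by
  obtain ⟨c1, c2⟩ := cc_bounds
  obtain ⟨k1, k2⟩ := kk_bounds
  obtain ⟨hW, hX⟩ := w_bound hm hm1 hP hP1
  set X := 2 * (2 - cc * m) / (1 - cc * m + cc ^ 2 * P) ^ 2 +
      4 / (1 - cc * m + cc ^ 2 * P) with hXd
  have c0 : 0 < cc := by linarith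
  have hm2 : 0 < m ^ 2 := by positivity
  obtain ⟨y, hy⟩ : ∃ y, y = P / m ^ 2 := ⟨_, rfl⟩
  have hPy : P = m ^ 2 * y := by rw [hy]; field_simp
  have hy0 : 0 < y := by rw [hy]; positivity
  have hy1 : y ≤ 1 / 4 := by
    rw [hy, div_le_iff₀ hm2]
    linarith
  have hU : 0 < kk * m ^ 2 + cc ^ 2 * P := by
    have : 0 < kk := by linarith
    positivity
  set U := kk * m ^ 2 + cc ^ 2 * P with hUd
  set z := P / U with hz
  have hz0 : 0 < z := by positivity
  have hzle : z ≤ 405 / 1000 + 139 / 100 * y := by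
    rw [hz, div_le_iff₀ hU, hUd, hPy]
    have h1 : y ≤ (405 / 1000 + 139 / 100 * y) * (kk + cc ^ 2 * y) := by
      have h2 : 7143 / 10000 ≤ cc ^ 2 := by nlinarith
      have h3 : (405 / 1000 + 139 / 100 * y) * (1546 / 10000 + 7143 / 10000 * y) ≤
          (405 / 1000 + 139 / 100 * y) * (kk + cc ^ 2 * y) := by
        apply mul_le_mul_of_nonneg_left _ (by positivity)
        nlinarith
      nlinarith [sq_nonneg (y - 25 / 100)]
    nlinarith
  -- multiply by `3 P²`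
  have hmain : 0 < m + 2 * cc * P + X * cc ^ 3 * P ^ 2 -
      3 * cc ^ 3 * (m ^ 2 * (2 - cc) * z ^ 2 + 2 * z * P) := by
    have hp := poly_y hm hm1 hy0.le hy1
    have hc3 : (6037 : ℝ) / 10000 ≤ cc ^ 3 := by
      have : (8452 / 10000 : ℝ) ^ 3 ≤ cc ^ 3 := pow_le_pow_left₀ (by norm_num) c1.le 3
      norm_num at this ⊢
      linarith
    have hc3' : cc ^ 3 ≤ 60422 / 100000 := by
      have : cc ^ 3 ≤ (8454 / 10000 : ℝ) ^ 3 := pow_le_pow_left₀ c0.le c2.le 3
      norm_num at this ⊢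
      linarith
    set ζ : ℝ := 405 / 1000 + 139 / 100 * y with hζ
    have hζ0 : 0 < ζ := by positivity
    have b1 : cc ^ 3 * ((2 - cc) * z ^ 2) ≤ 6978 / 10000 * ζ ^ 2 := by
      have h1 : z ^ 2 ≤ ζ ^ 2 := pow_le_pow_left₀ hz0.le hzle 2
      have h2 : cc ^ 3 * (2 - cc) ≤ 6978 / 10000 := by nlinarith
      calc cc ^ 3 * ((2 - cc) * z ^ 2) = cc ^ 3 * (2 - cc) * z ^ 2 := by ring
        _ ≤ 6978 / 10000 * ζ ^ 2 := mul_le_mul h2 h1 (sq_nonneg _) (by norm_num)
    have b2 : cc ^ 3 * (2 * z * y) ≤ 12085 / 10000 * y * ζ := by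
      have h1 : z * y ≤ ζ * y := mul_le_mul_of_nonneg_right hzle hy0.le
      have h2 : cc ^ 3 * (z * y) ≤ 60422 / 100000 * (ζ * y) :=
        mul_le_mul hc3' h1 (by positivity) (by norm_num)
      nlinarith
    have b3 : 8049 / 10000 * (2 + 2113 / 1000 * m) * m ^ 2 * y ^ 2 ≤
        1 / 3 * (X * cc ^ 3 * m ^ 2 * y ^ 2) := by
      have h1 : 8049 / 10000 * (2 + 2113 / 1000 * m) ≤ 1 / 3 * (X * cc ^ 3) := by
        have h2 : 4 * (2 + 2113 / 1000 * m) ≤ X := by
          refine le_trans ?_ hX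
          nlinarith
        have h3 : 4 * (2 + 2113 / 1000 * m) * (6037 / 10000) ≤ X * cc ^ 3 :=
          mul_le_mul h2 hc3 (by norm_num) (by
            have : 0 ≤ 4 * (2 + 2113 / 1000 * m) := by positivity
            linarith)
        nlinarith
      have h4 := mul_le_mul_of_nonneg_right h1 (by positivity : 0 ≤ m ^ 2 * y ^ 2)
      nlinarith
    have b4 : 5634 / 10000 * y ≤ 2 * cc / 3 * y :=
      mul_le_mul_of_nonneg_right (by linarith) hy0.le
    have hfin : 0 < m * (1 + 3 * m * (2 * cc / 3 * y + 1 / 3 * (X * cc ^ 3 * m ^ 2 * y ^ 2) -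
        cc ^ 3 * ((2 - cc) * z ^ 2) - cc ^ 3 * (2 * z * y))) := by
      apply mul_pos hm
      have h5 : 5634 / 10000 * y + 8049 / 10000 * (2 + 2113 / 1000 * m) * m ^ 2 * y ^ 2 -
          6978 / 10000 * ζ ^ 2 - 12085 / 10000 * y * ζ ≤
          2 * cc / 3 * y + 1 / 3 * (X * cc ^ 3 * m ^ 2 * y ^ 2) -
          cc ^ 3 * ((2 - cc) * z ^ 2) - cc ^ 3 * (2 * z * y) := by linarith
      have h6 := mul_le_mul_of_nonneg_left h5 (by positivity : 0 ≤ 3 * m)
      linarith
    refine hfin.trans_eq ?_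
    rw [hPy]
    ring
  have hfac : 1 / 3 * (m / P ^ 2 + 2 * cc / P + X * cc ^ 3) -
      cc ^ 3 * (m ^ 2 * (2 - cc) / U ^ 2 + 2 / U) =
      (m + 2 * cc * P + X * cc ^ 3 * P ^ 2 -
      3 * cc ^ 3 * (m ^ 2 * (2 - cc) * z ^ 2 + 2 * z * P)) / (3 * P ^ 2) := by
    rw [hz]
    field_simp
  rw [hfac]
  positivity

theorem p3_lt {m a : ℝ} (ha : 0 < a) (hab : a < m - a) (hm1 : m ≤ 1) :
    p3 m a < p3 m (m - a) := by
  obtain ⟨c1, c2⟩ := cc_bounds
  have c0 : 0 < cc := by linarith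
  have hm : 0 < m := by linarith
  obtain ⟨b, hb⟩ : ∃ b, b = m - a := ⟨_, rfl⟩
  rw [← hb]
  have hb0 : 0 < b := by linarith
  have hm' : m = a + b := by linarith
  have hP : 0 < a * b := by positivity
  have hP1 : a * b ≤ m ^ 2 / 4 := by
    rw [hm']
    nlinarith [sq_nonneg (a - b)]
  have hk := key hm hm1 hP hP1
  have hkk : kk = 1 - cc := by linarith [cc_add_kk]
  have wa : 0 < 1 - cc * a := by nlinarith
  have wb : 0 < 1 - cc * b := by nlinarith
  have ua : 0 < m - cc * a := by nlinarith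
  have ub : 0 < m - cc * b := by nlinarith
  have hW : 1 - cc * m + cc ^ 2 * (a * b) = (1 - cc * a) * (1 - cc * b) := by
    rw [hm']
    ring
  have hU : kk * m ^ 2 + cc ^ 2 * (a * b) = (m - cc * a) * (m - cc * b) := by
    rw [hkk, hm']
    ring
  rw [hW, hU] at hk
  have hD : 0 < b - a := by linarith
  have hk2 := mul_pos hD hk
  have e1 : 1 / a ^ 2 - 1 / b ^ 2 = (b - a) * (m / (a * b) ^ 2) := by
    rw [hm']
    field_simp
    ring
  have e2 : 1 / a - 1 / b = (b - a) * (1 / (a * b)) := by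
    field_simp
  have e3 : 1 / (1 - cc * b) - 1 / (1 - cc * a) =
      (b - a) * (cc / ((1 - cc * a) * (1 - cc * b))) := by
    rw [div_sub_div _ _ wb.ne' wa.ne', mul_div_assoc', mul_comm (1 - cc * b) (1 - cc * a)]
    congr 1
    ring
  have e4 : 1 / (1 - cc * b) ^ 2 - 1 / (1 - cc * a) ^ 2 =
      (b - a) * (cc * (2 - cc * m) / ((1 - cc * a) * (1 - cc * b)) ^ 2) := by
    rw [div_sub_div _ _ (by positivity) (by positivity), mul_div_assoc',
      show (1 - cc * b) ^ 2 * (1 - cc * a) ^ 2 = ((1 - cc * a) * (1 - cc * b)) ^ 2 by ring]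
    congr 1
    rw [hm']
    ring
  have e5 : 1 / (m - cc * b) - 1 / (m - cc * a) =
      (b - a) * (cc / ((m - cc * a) * (m - cc * b))) := by
    rw [div_sub_div _ _ ub.ne' ua.ne', mul_div_assoc', mul_comm (m - cc * b) (m - cc * a)]
    congr 1
    ring
  have e6 : 1 / (m - cc * b) ^ 2 - 1 / (m - cc * a) ^ 2 =
      (b - a) * (cc * (m * (2 - cc)) / ((m - cc * a) * (m - cc * b)) ^ 2) := by
    rw [div_sub_div _ _ (by positivity) (by positivity), mul_div_assoc',
      show (m - cc * b) ^ 2 * (m - cc * a) ^ 2 = ((m - cc * a) * (m - cc * b)) ^ 2 by ring]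
    congr 1
    rw [hm']
    ring
  have hfin : p3 m b - p3 m a = (b - a) *
      (1 / 3 * (m / (a * b) ^ 2 + 2 * cc / (a * b) + (2 * (2 - cc * m) /
        ((1 - cc * a) * (1 - cc * b)) ^ 2 + 4 / ((1 - cc * a) * (1 - cc * b))) * cc ^ 3) -
      cc ^ 3 * (m ^ 2 * (2 - cc) / ((m - cc * a) * (m - cc * b)) ^ 2 +
        2 / ((m - cc * a) * (m - cc * b)))) := by
    unfold p3
    linear_combination (1 / 3) * e1 + (2 * cc / 3) * e2 + (4 * cc ^ 2 / 3) * e3 +
      (2 * cc ^ 2 / 3) * e4 - 2 * cc ^ 2 * e5 - cc ^ 2 * m * e6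
  linarith

theorem continuous_f : Continuous f := by
  unfold f
  exact Real.continuous_mul_log

theorem continuous_phi (m : ℝ) : Continuous (phi m) := by
  have h : phi m = fun t => (f t - cc * t * f t + t * (t * (kk * Real.log kk)) +
      2 * t * f (1 - cc * t)) / 3 - t * f (m - cc * t) := by
    funext t
    unfold phi xi
    have : f t = t * Real.log t := rfl
    rw [this]
    ring
  rw [h]
  have hf := continuous_f
  fun_prop

/-- The second derivative of `a ↦ phi m a + phi m (m - a)` decreases. -/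
theorem q2_anti {m x y : ℝ} (hm1 : m ≤ 1) (hx : 0 < x) (hxy : x < y) (hy : y ≤ m / 2) :
    p2 m y + p2 m (m - y) < p2 m x + p2 m (m - x) := by
  obtain ⟨c1, c2⟩ := cc_bounds
  have c0 : 0 < cc := by linarith
  have hd : ∀ t ∈ Icc x y, HasDerivAt (fun s => p2 m s + p2 m (m - s))
      (p3 m t + p3 m (m - t) * (-1)) t := by
    intro t ht
    have t0 : 0 < t := hx.trans_le ht.1
    have t1 : t ≤ m / 2 := ht.2.trans hy
    have i1 : HasDerivAt (fun s : ℝ => m - s) (-1) t := by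
      simpa using (hasDerivAt_id t).const_sub m
    have h1 : HasDerivAt (p2 m) (p3 m t) t :=
      hasDerivAt_p2 t0 (by nlinarith) (by nlinarith)
    have h2 : HasDerivAt (p2 m) (p3 m (m - t)) (m - t) :=
      hasDerivAt_p2 (by linarith) (by nlinarith) (by nlinarith)
    exact h1.add (h2.comp t i1)
  have hanti : StrictAntiOn (fun s => p2 m s + p2 m (m - s)) (Icc x y) := by
    apply strictAntiOn_of_deriv_neg (convex_Icc _ _)
    · exact fun t ht => (hd t ht).continuousAt.continuousWithinAt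
    · intro t ht
      rw [interior_Icc] at ht
      rw [(hd t ⟨ht.1.le, ht.2.le⟩).deriv]
      have := p3_lt (m := m) (a := t) (hx.trans ht.1) (by linarith [ht.2]) hm1
      linarith
  exact hanti (left_mem_Icc.2 hxy.le) (right_mem_Icc.2 hxy.le) hxy

theorem two : S_Two := by
  intro m a hm hm1 ha ha2
  obtain ⟨c1, c2⟩ := cc_bounds
  have c0 : 0 < cc := by linarith
  set F : ℝ → ℝ := fun s => phi m s + phi m (m - s) with hF
  have hFc : Continuous F := by
    have := continuous_phi m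
    fun_prop
  have h0 : (0 : ℝ) ≤ m / 2 := by linarith
  obtain ⟨z, hz, hzmax⟩ := isCompact_Icc.exists_isMaxOn (nonempty_Icc.2 h0) hFc.continuousOn
  have hle : F a ≤ F z := hzmax ⟨ha, ha2⟩
  have hF0 : F 0 = E1 m := by
    simp only [hF, sub_zero]
    unfold E1 phi
    ring
  have hF2 : F (m / 2) = E2 m := by
    simp only [hF]
    unfold E2 phi
    rw [show m - m / 2 = m / 2 by ring]
    ring
  rcases hz.1.eq_or_lt with h | h
  · rw [← h, hF0] at hle
    exact hle.trans (le_max_left _ _)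
  rcases hz.2.eq_or_lt with h' | h'
  · rw [h', hF2] at hle
    exact hle.trans (le_max_right _ _)
  exfalso
  have hd1 : ∀ t, 0 < t → t ≤ m / 2 →
      HasDerivAt F (p1 m t + p1 m (m - t) * (-1)) t := by
    intro t t0 t1
    have i1 : HasDerivAt (fun s : ℝ => m - s) (-1) t := by
      simpa using (hasDerivAt_id t).const_sub m
    have h1 : HasDerivAt (phi m) (p1 m t) t :=
      hasDerivAt_phi t0 (by nlinarith) (by nlinarith)
    have h2 : HasDerivAt (phi m) (p1 m (m - t)) (m - t) :=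
      hasDerivAt_phi (by linarith) (by nlinarith) (by nlinarith)
    exact h1.add (h2.comp t i1)
  set G : ℝ → ℝ := fun t => p1 m t + p1 m (m - t) * (-1) with hG
  have hd2 : ∀ t, 0 < t → t ≤ m / 2 → HasDerivAt G (p2 m t + p2 m (m - t)) t := by
    intro t t0 t1
    have i1 : HasDerivAt (fun s : ℝ => m - s) (-1) t := by
      simpa using (hasDerivAt_id t).const_sub m
    have h1 : HasDerivAt (p1 m) (p2 m t) t :=
      hasDerivAt_p1 t0 (by nlinarith) (by nlinarith)
    have h2 : HasDerivAt (p1 m) (p2 m (m - t)) (m - t) :=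
      hasDerivAt_p1 (by linarith) (by nlinarith) (by nlinarith)
    have h3 := h1.add ((h2.comp t i1).mul_const (-1))
    refine h3.congr_deriv ?_
    ring
  have hlm : IsLocalMax F z := by
    have hmem : Icc 0 (m / 2) ∈ nhds z := Icc_mem_nhds h h'
    exact Filter.mem_of_superset hmem (fun x hx => hzmax hx)
  have hGz : G z = 0 := hlm.hasDerivAt_eq_zero (hd1 z h h'.le)
  have hG2 : G (m / 2) = 0 := by
    simp only [hG]
    rw [show m - m / 2 = m / 2 by ring]
    ring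
  obtain ⟨ξ, hξ, hξ0⟩ := exists_hasDerivAt_eq_zero (f := G)
    (f' := fun t => p2 m t + p2 m (m - t)) h'
    (fun x hx => (hd2 x (h.trans_le hx.1) hx.2).continuousAt.continuousWithinAt)
    (hGz.trans hG2.symm) (fun x hx => hd2 x (h.trans hx.1) hx.2.le)
  have hGmono : StrictMonoOn G (Icc z ξ) := by
    apply strictMonoOn_of_deriv_pos (convex_Icc _ _)
    · exact fun t ht => (hd2 t (h.trans_le ht.1)
        (ht.2.trans hξ.2.le)).continuousAt.continuousWithinAt
    · intro t ht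
      rw [interior_Icc] at ht
      rw [(hd2 t (h.trans ht.1) (ht.2.trans hξ.2).le).deriv]
      have := q2_anti (m := m) hm1 (h.trans ht.1) ht.2 hξ.2.le
      linarith [hξ0]
  have hFmono : StrictMonoOn F (Icc z ξ) := by
    apply strictMonoOn_of_deriv_pos (convex_Icc _ _)
    · exact hFc.continuousOn
    · intro t ht
      rw [interior_Icc] at ht
      rw [(hd1 t (h.trans ht.1) (ht.2.trans hξ.2).le).deriv]
      have := hGmono (left_mem_Icc.2 hξ.1.le) ⟨ht.1.le, ht.2.le⟩ ht.1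
      rw [hGz] at this
      exact this
  have h1 := hFmono (left_mem_Icc.2 hξ.1.le) (right_mem_Icc.2 hξ.1.le) hξ.1
  have h2 : F ξ ≤ F z := hzmax ⟨(h.trans hξ.1).le, hξ.2.le⟩
  linarith

end Pool.Agent.Q293.RB
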